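import Pool.Agent.H18.L.R352.E.EF

/-!
# E-functions: monomials in the functions of a tower form a differential system; algebraic independence of values
-/

set_option autoImplicit false
set_option linter.unusedSectionVars false
set_option linter.unusedSimpArgs false

open PowerSeries Finset.HasAntidiagonal

namespace Pool.Agent.R352.E

open Pool.Agent.Y113

section

variable {σ : Type} [Fintype σ] [LinearOrder σ] (t : Tw σ) (q : ℕ)

/-- a realization of a tower by E-functions -/
structure Real' (f : σ → ℚ⟦X⟧) : Prop where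
  hq : 1 ≤ q
  hz : f t.z = X
  hw : f t.w = wS q
  hv : ∀ v, v < t.w → (TQ q : ℚ⟦X⟧) * d⁄dX ℚ (f v) = (q : ℚ⟦X⟧) * MvPolynomial.aeval f (t.g v)
  hE : ∀ v, v < t.w → EF (f v)

variable {t q} {f : σ → ℚ⟦X⟧}

lemma TQ_eq : (TQ q : ℚ⟦X⟧) = (q : ℚ⟦X⟧) * X := by
  rw [TQ, Polynomial.coe_mul, Polynomial.coe_C, Polynomial.coe_X]
  simp

lemma deriv_wS (hq : 1 ≤ q) : (TQ q : ℚ⟦X⟧) * d⁄dX ℚ (wS q) = -(X * wS q) := by
  have hq0 : (q : ℚ) ≠ 0 := by exact_mod_cast (by omega : q ≠ 0)
  have h1 : (q : ℚ⟦X⟧) * d⁄dX ℚ (wS q) = - wS q := by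
    ext m
    have h2 : ((q : ℚ⟦X⟧)) = C (q : ℚ) := by simp
    rw [h2, coeff_C_mul, coeff_derivative, map_neg, wS, coeff_mk, coeff_mk, Nat.factorial_succ]
    have : (m.factorial : ℚ) ≠ 0 := by exact_mod_cast m.factorial_ne_zero
    push_cast
    have h3 : (m : ℚ) + 1 ≠ 0 := by positivity
    rw [pow_succ]
    field_simp
  rw [TQ_eq]
  linear_combination (X : ℚ⟦X⟧) * h1

/-- the homomorphism to power series is compatible with the derivations -/
lemma e_D (R : Real' t q f) (P : MvPolynomial σ ℚ) :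
    MvPolynomial.aeval f (t.D q P) = (TQ q : ℚ⟦X⟧) * d⁄dX ℚ (MvPolynomial.aeval f P) := by
  induction P using MvPolynomial.induction_on with
  | C a =>
    rw [MvPolynomial.derivation_C, map_zero, MvPolynomial.aeval_C]
    simp
  | add P Q hP hQ => rw [map_add, map_add, hP, hQ, map_add, map_add, mul_add]
  | mul_X P i hP =>
    rw [Derivation.leibniz]
    simp only [smul_eq_mul, map_add, map_mul, MvPolynomial.aeval_X, hP, Derivation.leibniz]
    have h1 : MvPolynomial.aeval f (t.D q (MvPolynomial.X i)) = (TQ q : ℚ⟦X⟧) * d⁄dX ℚ (f i) := by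
      by_cases hz : i = t.z
      · rw [hz, t.D_z, R.hz, map_mul, MvPolynomial.aeval_X, R.hz, MvPolynomial.aeval_C, TQ_eq]
        simp
      · by_cases hw : i = t.w
        · rw [hw, t.D_w, R.hw, map_neg, map_mul, MvPolynomial.aeval_X, MvPolynomial.aeval_X, R.hz, R.hw, deriv_wS R.hq]
        · have hlt : i < t.w := lt_of_le_of_ne (t.htop i hz) hw
          rw [t.D_v q hlt, map_mul, MvPolynomial.aeval_C, R.hv i hlt]
          simp
    rw [h1]
    ring

theorem e_injective (R : Real' t q f) : Function.Injective (MvPolynomial.aeval f : MvPolynomial σ ℚ →ₐ[ℚ] ℚ⟦X⟧) := by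
  let θ : ℚ⟦X⟧ →+ ℚ⟦X⟧ :=
    { toFun := fun g => (TQ q : ℚ⟦X⟧) * d⁄dX ℚ g
      map_zero' := by simp
      map_add' := fun a b => by rw [map_add, mul_add] }
  refine t.injective q R.hq (MvPolynomial.aeval f : MvPolynomial σ ℚ →ₐ[ℚ] ℚ⟦X⟧).toRingHom θ (fun P => e_D R P) ?_
  intro d j c hc
  show MvPolynomial.aeval f (t.E d j * MvPolynomial.C c) ≠ 0
  rw [Tw.E, map_mul, map_mul, map_pow, map_pow, MvPolynomial.aeval_X, MvPolynomial.aeval_X, R.hz, R.hw,
    MvPolynomial.aeval_C]
  refine mul_ne_zero (mul_ne_zero (pow_ne_zero _ X_ne_zero) (pow_ne_zero _ (wS_ne q))) ?_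
  simpa using hc

/-- the index set of the monomials -/
abbrev Idx (t : Tw σ) (M J₀ : ℕ) : Type := {s : σ →₀ ℕ // s t.z = 0 ∧ s t.w + M * ∑ v ∈ t.V, s v ≤ J₀}

lemma Idx_finite (t : Tw σ) {M J₀ : ℕ} (hM : 1 ≤ M) : Finite (Idx t M J₀) := by
  have h1 : {s : σ →₀ ℕ | s t.z = 0 ∧ s t.w + M * ∑ v ∈ t.V, s v ≤ J₀}.Finite := by
    apply (Set.finite_Iic (Finsupp.equivFunOnFinite.symm (fun _ => J₀) : σ →₀ ℕ)).subset
    rintro s ⟨h0, h1⟩ i
    rw [Finsupp.equivFunOnFinite_symm_apply_apply]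
    by_cases hz : i = t.z
    · rw [hz, h0]; exact Nat.zero_le _
    · by_cases hw : i = t.w
      · rw [hw]; omega
      · have hi : i ∈ t.V := t.mem_V.2 (lt_of_le_of_ne (t.htop i hz) hw)
        have h2 : s i ≤ ∑ v ∈ t.V, s v := Finset.single_le_sum (f := fun v => s v) (fun _ _ => Nat.zero_le _) hi
        have h3 : ∑ v ∈ t.V, s v ≤ M * ∑ v ∈ t.V, s v := Nat.le_mul_of_pos_left _ hM
        omega
  exact h1.to_subtype

/-- the monomials as power series -/
noncomputable def mon (f : σ → ℚ⟦X⟧) (s : σ →₀ ℕ) : ℚ⟦X⟧ := MvPolynomial.aeval f (MvPolynomial.monomial s (1 : ℚ))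

lemma mon_eq (s : σ →₀ ℕ) : mon f s = ∏ i, f i ^ s i := by
  rw [mon, MvPolynomial.aeval_monomial, map_one, one_mul, Finsupp.prod_fintype]
  intro i; rw [pow_zero]

lemma mon_add (s s' : σ →₀ ℕ) : mon f (s + s') = mon f s * mon f s' := by
  rw [mon, mon, mon, ← map_mul, MvPolynomial.monomial_mul, one_mul]

lemma mon_single (i : σ) (n : ℕ) : mon f (Finsupp.single i n) = f i ^ n := by
  rw [mon, MvPolynomial.aeval_monomial, map_one, one_mul, Finsupp.prod_single_index]
  rw [pow_zero]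

lemma EF_mon (R : Real' t q f) {s : σ →₀ ℕ} (hs : s t.z = 0) : EF (mon f s) := by
  rw [mon_eq]
  apply EF.prod
  intro i _
  by_cases hz : i = t.z
  · rw [hz, hs, pow_zero]; exact EF.one
  · by_cases hw : i = t.w
    · rw [hw, R.hw]; exact (EF_wS q R.hq).pow _
    · exact (R.hE i (lt_of_le_of_ne (t.htop i hz) hw)).pow _

/-- the `ℤ[X]`-span of a family of power series -/
def Sp {ι : Type} [Fintype ι] (y : ι → ℚ⟦X⟧) (g : ℚ⟦X⟧) : Prop := ∃ c : ι → Polynomial ℤ, g = ∑ i, ps (c i) * y i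

lemma ps_add (P Q : Polynomial ℤ) : ps (P + Q) = ps P + ps Q := by simp [ps]
lemma ps_mul (P Q : Polynomial ℤ) : ps (P * Q) = ps P * ps Q := by simp [ps]
lemma ps_C (a : ℤ) : ps (Polynomial.C a) = (a : ℚ⟦X⟧) := by
  rw [ps, Polynomial.map_C, Polynomial.coe_C]
  simp
lemma ps_X : ps Polynomial.X = X := by simp [ps]
lemma ps_zero : ps 0 = 0 := by simp [ps]
lemma ps_one : ps 1 = 1 := by simp [ps]

lemma Sp.add {ι : Type} [Fintype ι] {y : ι → ℚ⟦X⟧} {g h : ℚ⟦X⟧} (hg : Sp y g) (hh : Sp y h) : Sp y (g + h) := by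
  obtain ⟨c, hc⟩ := hg
  obtain ⟨d, hd⟩ := hh
  refine ⟨fun i => c i + d i, ?_⟩
  rw [hc, hd, ← Finset.sum_add_distrib]
  exact Finset.sum_congr rfl fun i _ => by rw [ps_add, add_mul]

lemma Sp.zero {ι : Type} [Fintype ι] {y : ι → ℚ⟦X⟧} : Sp y 0 := ⟨fun _ => 0, by simp [ps_zero]⟩

lemma Sp.mul {ι : Type} [Fintype ι] {y : ι → ℚ⟦X⟧} {g : ℚ⟦X⟧} (P : Polynomial ℤ) (hg : Sp y g) : Sp y (ps P * g) := by
  obtain ⟨c, hc⟩ := hg
  refine ⟨fun i => P * c i, ?_⟩
  rw [hc, Finset.mul_sum]
  exact Finset.sum_congr rfl fun i _ => by rw [ps_mul, mul_assoc]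

lemma Sp.mem {ι : Type} [Fintype ι] {y : ι → ℚ⟦X⟧} (i : ι) : Sp y (y i) := by
  classical
  refine ⟨fun j => if j = i then 1 else 0, ?_⟩
  rw [Finset.sum_eq_single i]
  · simp only [if_true]; rw [ps_one, one_mul]
  · intro j _ hj; simp only [if_neg hj]; rw [ps_zero, zero_mul]
  · intro h; exact absurd (Finset.mem_univ i) h

lemma Sp.sum {ι κ : Type} [Fintype ι] {y : ι → ℚ⟦X⟧} (s : Finset κ) (g : κ → ℚ⟦X⟧) (hg : ∀ k ∈ s, Sp y (g k)) :
    Sp y (∑ k ∈ s, g k) := by
  classical
  induction s using Finset.induction_on with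
  | empty => rw [Finset.sum_empty]; exact Sp.zero
  | insert a s ha ih =>
    rw [Finset.sum_insert ha]
    exact (hg a (Finset.mem_insert_self _ _)).add (ih fun k hk => hg k (Finset.mem_insert_of_mem hk))

/-- the derivative of a monomial -/
lemma deriv_mon (R : Real' t q f) {s : σ →₀ ℕ} (hs : s t.z = 0) :
    (TQ q : ℚ⟦X⟧) * d⁄dX ℚ (mon f s) = ps (Polynomial.C (-(s t.w : ℤ)) * Polynomial.X) * mon f s +
      ∑ v ∈ t.V, (if s v = 0 then 0 else ps (Polynomial.C ((q : ℤ) * s v)) *
        (MvPolynomial.aeval f (t.g v) * mon f (s - Finsupp.single v 1))) := by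
  rw [mon, ← e_D R, t.D_eq, ← Finset.add_sum_erase _ _ (Finset.mem_univ t.z),
      ← Finset.add_sum_erase _ _ (Finset.mem_erase.2 ⟨t.hwz.ne, Finset.mem_univ t.w⟩), t.D_z, t.D_w]
  have h1 : MvPolynomial.pderiv t.z (MvPolynomial.monomial s (1 : ℚ)) = 0 := by
    rw [MvPolynomial.pderiv_monomial, hs]; simp
  have hVe : (Finset.univ.erase t.z).erase t.w = t.V := by
    ext v
    rw [Finset.mem_erase, Finset.mem_erase, t.mem_V]
    constructor
    · rintro ⟨h2, h3, _⟩
      exact lt_of_le_of_ne (t.htop v h3) h2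
    · intro h
      exact ⟨h.ne, (h.trans t.hwz).ne, Finset.mem_univ _⟩
  rw [h1, mul_zero, zero_add, map_add, hVe, map_sum]
  congr 1
  · have h2 : -(MvPolynomial.X t.z * MvPolynomial.X t.w) * MvPolynomial.pderiv t.w (MvPolynomial.monomial s (1 : ℚ)) =
        -(MvPolynomial.X t.z * (MvPolynomial.X t.w * MvPolynomial.pderiv t.w (MvPolynomial.monomial s (1 : ℚ)))) := by
      ring
    rw [h2, MvPolynomial.X_mul_pderiv_monomial, map_neg, map_mul, MvPolynomial.aeval_X, R.hz, ps_mul, ps_C, ps_X]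
    simp
    ring
  · refine Finset.sum_congr rfl fun v hv => ?_
    rw [t.D_v q (t.mem_V.1 hv), MvPolynomial.pderiv_monomial]
    split_ifs with h0
    · rw [h0]; simp
    · rw [map_mul, map_mul, MvPolynomial.aeval_C]
      have h2 : MvPolynomial.monomial (s - Finsupp.single v 1) ((1 : ℚ) * (s v : ℚ)) =
          MvPolynomial.C (s v : ℚ) * MvPolynomial.monomial (s - Finsupp.single v 1) (1 : ℚ) := by
        rw [MvPolynomial.C_mul_monomial]; ring_nf
      rw [h2, map_mul, MvPolynomial.aeval_C, ps_C, mon, map_natCast, map_natCast]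
      push_cast
      ring

/-- the monomials form a differential system -/
theorem deriv_Sp (R : Real' t q f) {M J₀ : ℕ} (hM : ∀ v, v < t.w → t.m v ≤ M) (hM1 : 1 ≤ M) [Fintype (Idx t M J₀)]
    (s : Idx t M J₀) : Sp (fun s : Idx t M J₀ => mon f s.1) ((TQ q : ℚ⟦X⟧) * d⁄dX ℚ (mon f s.1)) := by
  obtain ⟨s, hs0, hs1⟩ := s
  rw [deriv_mon R hs0]
  have hmem : ∀ s' : σ →₀ ℕ, s' t.z = 0 → s' t.w + M * ∑ v ∈ t.V, s' v ≤ J₀ →
      Sp (fun s : Idx t M J₀ => mon f s.1) (mon f s') := fun s' h0 h1 =>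
    Sp.mem (y := fun s : Idx t M J₀ => mon f s.1) (⟨s', h0, h1⟩ : Idx t M J₀)
  refine ((hmem s hs0 hs1).mul _).add (Sp.sum _ _ fun v hv => ?_)
  split_ifs with h0
  · exact Sp.zero
  apply Sp.mul
  have hvw := t.mem_V.1 hv
  have hzw : t.z ∉ t.V := by rw [t.mem_V]; exact not_lt.2 t.hwz.le
  have hww : t.w ∉ t.V := by rw [t.mem_V]; exact lt_irrefl _
  -- the exponent with one `v` removed
  have hsz : (s - Finsupp.single v 1 : σ →₀ ℕ) t.z = 0 := by
    rw [Finsupp.tsub_apply, hs0]; simp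
  have hsw : (s - Finsupp.single v 1 : σ →₀ ℕ) t.w = s t.w := by
    rw [Finsupp.tsub_apply, Finsupp.single_apply, if_neg hvw.ne, Nat.sub_zero]
  have hsum : ∑ v' ∈ t.V, (s - Finsupp.single v 1 : σ →₀ ℕ) v' + 1 = ∑ v' ∈ t.V, s v' := by
    rw [← Finset.add_sum_erase _ _ hv, ← Finset.add_sum_erase _ (fun v' => s v') hv]
    have h1 : ∑ x ∈ t.V.erase v, (s - Finsupp.single v 1 : σ →₀ ℕ) x = ∑ x ∈ t.V.erase v, s x := by
      refine Finset.sum_congr rfl fun x hx => ?_
      rw [Finsupp.tsub_apply, Finsupp.single_apply, if_neg (Finset.mem_erase.1 hx).1.symm, Nat.sub_zero]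
    rw [h1, Finsupp.tsub_apply, Finsupp.single_eq_same]
    omega
  have hMsum : M * ∑ v' ∈ t.V, (s - Finsupp.single v 1 : σ →₀ ℕ) v' + M = M * ∑ v' ∈ t.V, s v' := by
    rw [← hsum]; ring
  rw [Tw.g]
  cases hp : t.pr v with
  | some u =>
    simp only
    have huw := (t.hpr v u hvw hp).2
    have huV := t.mem_V.2 huw
    have e1 : MvPolynomial.aeval f (MvPolynomial.X u : MvPolynomial σ ℚ) * mon f (s - Finsupp.single v 1) =
        mon f (Finsupp.single u 1 + (s - Finsupp.single v 1)) := by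
      rw [mon_add, mon_single, pow_one, MvPolynomial.aeval_X]
    rw [e1]
    apply hmem
    · rw [Finsupp.add_apply, hsz, Finsupp.single_apply, if_neg (huw.trans t.hwz).ne]
    · have h2 : ∑ v' ∈ t.V, (Finsupp.single u 1 + (s - Finsupp.single v 1) : σ →₀ ℕ) v' =
          1 + ∑ v' ∈ t.V, (s - Finsupp.single v 1 : σ →₀ ℕ) v' := by
        simp only [Finsupp.add_apply, Finset.sum_add_distrib]
        congr 1
        rw [Finset.sum_eq_single u]
        · simp
        · intro x _ hx; rw [Finsupp.single_apply, if_neg hx.symm]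
        · intro h; exact absurd huV h
      rw [Finsupp.add_apply, hsw, Finsupp.single_apply, if_neg huw.ne, h2, mul_add, mul_one]
      omega
  | none =>
    simp only
    have e1 : MvPolynomial.aeval f (1 - MvPolynomial.X t.w ^ t.m v : MvPolynomial σ ℚ) * mon f (s - Finsupp.single v 1) =
        mon f (s - Finsupp.single v 1) + ps (Polynomial.C (-1)) *
          mon f (Finsupp.single t.w (t.m v) + (s - Finsupp.single v 1)) := by
      rw [mon_add, mon_single, map_sub, map_one, map_pow, MvPolynomial.aeval_X, ps_C]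
      push_cast
      ring
    rw [e1]
    refine (hmem _ hsz (by rw [hsw]; omega)).add (Sp.mul _ (hmem _ ?_ ?_))
    · rw [Finsupp.add_apply, hsz, Finsupp.single_apply, if_neg t.hwz.ne]
    · have h2 : ∑ v' ∈ t.V, (Finsupp.single t.w (t.m v) + (s - Finsupp.single v 1) : σ →₀ ℕ) v' =
          ∑ v' ∈ t.V, (s - Finsupp.single v 1 : σ →₀ ℕ) v' := by
        refine Finset.sum_congr rfl fun x hx => ?_
        rw [Finsupp.add_apply, Finsupp.single_apply, if_neg, zero_add]
        rintro rfl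
        exact hww hx
      rw [Finsupp.add_apply, hsw, Finsupp.single_eq_same, h2]
      have := hM v hvw
      omega

/-- the monomials are linearly independent over `ℚ[X]` -/
theorem mon_LI (R : Real' t q f) {M J₀ : ℕ} [Fintype (Idx t M J₀)] :
    LinearIndependent (Polynomial ℚ) (fun s : Idx t M J₀ => mon f s.1) := by
  classical
  rw [Fintype.linearIndependent_iff]
  intro c hc s
  -- the polynomial relation
  have h1 : MvPolynomial.aeval f (∑ s : Idx t M J₀, Polynomial.aeval (MvPolynomial.X t.z : MvPolynomial σ ℚ) (c s) *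
      MvPolynomial.monomial s.1 (1 : ℚ)) = 0 := by
    rw [map_sum, ← hc]
    refine Finset.sum_congr rfl fun s _ => ?_
    rw [map_mul, Algebra.smul_def]
    congr 1
    rw [← Polynomial.aeval_algHom_apply, MvPolynomial.aeval_X, R.hz]
    induction c s using Polynomial.induction_on' with
    | add p q hp hq => rw [map_add, map_add, hp, hq]
    | monomial n a =>
      rw [Polynomial.aeval_monomial]
      show _ = ((Polynomial.monomial n a : Polynomial ℚ) : ℚ⟦X⟧)
      rw [Polynomial.coe_monomial, PowerSeries.monomial_eq_C_mul_X_pow]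
      rfl
  have h2 := e_injective R (h1.trans (map_zero _).symm)
  -- coefficients
  ext n
  have h3 := congrArg (MvPolynomial.coeff (s.1 + Finsupp.single t.z n)) h2
  rw [MvPolynomial.coeff_sum, MvPolynomial.coeff_zero, Finset.sum_eq_single s] at h3
  · rw [MvPolynomial.coeff_mul_monomial', if_pos (by simp), mul_one, add_tsub_cancel_left] at h3
    rw [Polynomial.coeff_zero, ← h3]
    rw [Polynomial.aeval_eq_sum_range, MvPolynomial.coeff_sum]
    have h4 : ∀ k ∈ Finset.range ((c s).natDegree + 1), MvPolynomial.coeff (Finsupp.single t.z n)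
        ((c s).coeff k • (MvPolynomial.X t.z : MvPolynomial σ ℚ) ^ k) = if k = n then (c s).coeff n else 0 := by
      intro k _
      rw [MvPolynomial.coeff_smul, MvPolynomial.X_pow_eq_monomial, MvPolynomial.coeff_monomial, smul_eq_mul]
      by_cases hk : k = n
      · rw [if_pos hk, hk, if_pos rfl, mul_one]
      · rw [if_neg hk, if_neg, mul_zero]
        intro h5
        have := congrArg (fun g : σ →₀ ℕ => g t.z) h5
        simp at this
        exact hk this
    rw [Finset.sum_congr rfl h4, Finset.sum_ite_eq']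
    split_ifs with h5
    · rfl
    · rw [Finset.mem_range, not_lt] at h5
      exact Polynomial.coeff_eq_zero_of_natDegree_lt (by omega)
  · intro s' _ hne
    rw [MvPolynomial.coeff_mul_monomial']
    split_ifs with hle
    · rw [mul_one, Polynomial.aeval_eq_sum_range, MvPolynomial.coeff_sum]
      refine Finset.sum_eq_zero fun k _ => ?_
      rw [MvPolynomial.coeff_smul, MvPolynomial.X_pow_eq_monomial, MvPolynomial.coeff_monomial, smul_eq_mul, if_neg,
        mul_zero]
      intro h5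
      apply hne
      apply Subtype.ext
      have h6 : s.1 + Finsupp.single t.z n = Finsupp.single t.z k + s'.1 := by
        rw [h5, tsub_add_cancel_of_le hle]
      have h7 := congrArg (fun g : σ →₀ ℕ => g t.z) h6
      simp only [Finsupp.add_apply, Finsupp.single_eq_same, s.2.1, s'.2.1] at h7
      have h8 : n = k := by omega
      rw [h8, add_comm] at h6
      exact (add_left_cancel h6).symm
    · rfl
  · intro h; exact absurd (Finset.mem_univ s) h

/-- linear independence over `ℚ` of the values at `1` of the monomials -/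
theorem val_LI (R : Real' t q f) {M J₀ : ℕ} (hM : ∀ v, v < t.w → t.m v ≤ M) (hM1 : 1 ≤ M) [Fintype (Idx t M J₀)] :
    LinearIndependent ℚ (fun s : Idx t M J₀ => ev 1 (mon f s.1)) := by
  classical
  set N := Fintype.card (Idx t M J₀) with hN
  let e : Fin N ≃ Idx t M J₀ := (Fintype.equivFin _).symm
  set y : Fin N → ℚ⟦X⟧ := fun i => mon f (e i).1 with hy
  obtain ⟨C, hC, h1, h2⟩ := EF.common (y := y) (fun i => EF_mon R (e i).2.1)
  have hSys : ESys q C y :=
    { one_le := hC
      hq := R.hq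
      size := h1
      den := h2
      der := by
        have h3 := fun i => deriv_Sp R hM hM1 (e i)
        choose B hB using h3
        refine ⟨fun i j => B i (e j), fun i => ?_⟩
        rw [hy, hB i, ← Equiv.sum_comp e] }
  have h0 : e (e.symm ⟨0, by simp⟩) = (⟨0, by simp⟩ : Idx t M J₀) := e.apply_symm_apply _
  have h3 := E_lin hSys (e.symm ⟨0, by simp⟩) (by
    rw [hy]
    simp only [h0]
    rw [mon_eq]; simp) ((mon_LI R).comp e e.injective)
  have h4 := h3.comp e.symm e.symm.injective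
  convert h4 using 1
  funext s
  simp only [Function.comp_apply, hy, Equiv.apply_symm_apply]

end

end Pool.Agent.R352.E
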