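import Pool.Agent.H18.L.R352.E.Main

/-!
# E-functions: the end of the proof of the theorem of Siegel and Shidlovskii over `ℚ`
-/

set_option autoImplicit false

open PowerSeries Finset.HasAntidiagonal

namespace Pool.Agent.R352.E

open Pool.Agent.Y113

lemma A0_le {N L ν n m₀ : ℕ} {C : ℝ} (hC : 1 ≤ C) (hN : 0 < N) (hν : 1 ≤ ν) (hn : n = L * ν)
    (hm₀ : m₀ + ν = N * n) :
    ((N * (n + 1) : ℕ) * (2 * C) ^ (2 * m₀ + 1)) ^ (N * L) ≤
      (((2 * (N * (L + 1) : ℕ)) * (2 * C) ^ (2 * (N * L))) ^ (N * L)) ^ ν := by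
  have hC2 : (1 : ℝ) ≤ 2 * C := by linarith
  have h1 : ((N * (n + 1) : ℕ) : ℝ) ≤ (2 * (N * (L + 1) : ℕ)) ^ ν := by
    have h2 : (1 : ℝ) ≤ ((N * (L + 1) : ℕ) : ℝ) := by exact_mod_cast Nat.mul_pos hN (Nat.succ_pos L)
    refine le_trans ?_ (lin_le_pow h2 hν)
    have h3 : N * (n + 1) ≤ N * (L + 1) * ν := by
      rw [hn]
      have : L * ν + 1 ≤ (L + 1) * ν := by rw [add_mul, one_mul]; omega
      calc N * (L * ν + 1) ≤ N * ((L + 1) * ν) := Nat.mul_le_mul_left _ this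
        _ = _ := by ring
    exact_mod_cast h3
  have h4 : (2 * C) ^ (2 * m₀ + 1) ≤ ((2 * C) ^ (2 * (N * L))) ^ ν := by
    rw [← pow_mul]
    apply pow_le_pow_right₀ hC2
    have h5 : 2 * (N * L) * ν = 2 * (N * n) := by rw [hn]; ring
    rw [h5]
    omega
  calc ((N * (n + 1) : ℕ) * (2 * C) ^ (2 * m₀ + 1)) ^ (N * L)
      ≤ ((2 * (N * (L + 1) : ℕ)) ^ ν * ((2 * C) ^ (2 * (N * L))) ^ ν) ^ (N * L) := by
        apply pow_le_pow_left₀ (by positivity)
        exact mul_le_mul h1 h4 (by positivity) (by positivity)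
    _ = _ := by rw [← mul_pow, ← pow_mul, ← pow_mul, mul_comm ν]

lemma fac_le (L ν : ℕ) : (((L * ν).factorial : ℕ) : ℝ) ≤ ((L : ℝ) ^ L) ^ ν * ((ν : ℝ) ^ ν) ^ L := by
  have h1 : (((L * ν).factorial : ℕ) : ℝ) ≤ ((L * ν : ℕ) : ℝ) ^ (L * ν) := by
    exact_mod_cast Nat.factorial_le_pow _
  refine h1.trans (le_of_eq ?_)
  push_cast
  rw [mul_pow, ← pow_mul, ← pow_mul, mul_comm ν L]

lemma fac_ge {R ν : ℕ} (hR : 1 ≤ R) : ((ν : ℝ) ^ ν) ^ (R - 1) ≤ (((R * ν).factorial : ℕ) : ℝ) := by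
  have h1 := Nat.factorial_mul_pow_le_factorial (m := ν) (n := (R - 1) * ν)
  have h2 : ν + (R - 1) * ν = R * ν := by
    obtain ⟨S, rfl⟩ : ∃ S, R = S + 1 := ⟨R - 1, by omega⟩
    simp only [Nat.add_sub_cancel]; ring
  rw [h2] at h1
  have h3 : ν ^ ((R - 1) * ν) ≤ (R * ν).factorial := by
    refine le_trans ?_ h1
    calc ν ^ ((R - 1) * ν) ≤ (ν + 1) ^ ((R - 1) * ν) := Nat.pow_le_pow_left (by omega) _
      _ ≤ ν.factorial * (ν + 1) ^ ((R - 1) * ν) := Nat.le_mul_of_pos_left _ (Nat.factorial_pos _)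
  rw [← pow_mul, mul_comm ν]
  exact_mod_cast h3

theorem E_fin {N q : ℕ} {C : ℝ} {y : Fin N → ℚ⟦X⟧} (hE : ESys q C y) (i₀ : Fin N) (h1 : y i₀ = 1)
    (hLI : LinearIndependent (Polynomial ℚ) y) (a : Fin N → ℤ) (ha : ∑ i, (a i : ℝ) * ev 1 (y i) = 0) : a = 0 := by
  by_contra hane
  have hC := hE.one_le
  have hNpos : 0 < N := i₀.pos
  -- the case N = 1
  rcases Nat.lt_or_ge N 2 with hN | hN
  · have hN1 : N = 1 := by omega
    apply hane
    subst hN1
    funext i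
    have hi : ∀ j : Fin 1, j = i₀ := fun j => Subsingleton.elim _ _
    have h2 : ∑ i, (a i : ℝ) * ev 1 (y i) = (a i : ℝ) := by
      rw [Fin.sum_univ_one]
      rw [hi 0, h1, ev_one, mul_one, hi i]
    rw [ha] at h2
    simp only [Pi.zero_apply]
    exact_mod_cast h2.symm
  obtain ⟨B, hB⟩ := hE.der
  have hq1 : (1 : ℝ) ≤ q := by exact_mod_cast hE.hq
  obtain ⟨c₁, hc₁⟩ := rank_nab (T := TQ q) (B := fun i j => (B i j).map (Int.castRingHom ℚ)) hB hLI i₀ h1 1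
    one_ne_zero (by
      simp only [TQ, Polynomial.eval_mul, Polynomial.eval_C, Polynomial.eval_X, mul_one]
      exact_mod_cast (by have := hE.hq; omega : q ≠ 0))
  obtain ⟨b, hb, hBb⟩ : ∃ b : ℕ, 1 ≤ b ∧ ∀ i j, (B i j).natDegree ≤ b := by
    refine ⟨1 + ∑ i, ∑ j, (B i j).natDegree, by omega, fun i j => ?_⟩
    have h2 : (B i j).natDegree ≤ ∑ j, (B i j).natDegree :=
      Finset.single_le_sum (f := fun j => (B i j).natDegree) (fun _ _ => Nat.zero_le _) (Finset.mem_univ j)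
    have h3 : ∑ j, (B i j).natDegree ≤ ∑ i, ∑ j, (B i j).natDegree :=
      Finset.single_le_sum (f := fun i => ∑ j, (B i j).natDegree) (fun _ _ => Nat.zero_le _) (Finset.mem_univ i)
    omega
  obtain ⟨β, hβ0, hβ⟩ : ∃ β : ℝ, 0 ≤ β ∧ ∀ j, ∑ i, l1 (B i j) ≤ β := by
    refine ⟨∑ j, ∑ i, l1 (B i j), Finset.sum_nonneg fun _ _ => Finset.sum_nonneg fun _ _ => l1_nonneg _, fun j => ?_⟩
    exact Finset.single_le_sum (f := fun j => ∑ i, l1 (B i j))
      (fun _ _ => Finset.sum_nonneg fun _ _ => l1_nonneg _) (Finset.mem_univ j)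
  set A : ℝ := ∑ i, |(a i : ℝ)| with hA
  have hAi : ∀ i, |(a i : ℝ)| ≤ A := fun i =>
    Finset.single_le_sum (f := fun i => |(a i : ℝ)|) (fun _ _ => abs_nonneg _) (Finset.mem_univ i)
  have hA0 : 0 ≤ A := (abs_nonneg _).trans (hAi i₀)
  -- parameters
  set L : ℕ := 2 * N + 1 with hL
  have hNL : 2 ≤ N * L := by
    calc 2 ≤ N := hN
      _ = N * 1 := (mul_one N).symm
      _ ≤ N * L := Nat.mul_le_mul_left _ (by omega)
  set g1 : ℝ := 2 * ((L + 2 * b + 1 : ℕ) : ℝ) with hg1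
  set g2 : ℝ := q * ((L + 2 * b : ℕ) : ℝ) + β with hg2
  set g3 : ℝ := ((2 * (N * (L + 1) : ℕ)) * (2 * C) ^ (2 * (N * L))) ^ (N * L) with hg3
  set G1 : ℝ := g1 * (g2 ^ 2 * ((L : ℝ) ^ L * g3)) with hG1
  set G2 : ℝ := (L : ℝ) ^ L * g3 * (q : ℝ) ^ 2 * 4 * (2 * C * Real.exp 1) ^ (N * L - 1) with hG2
  set c2 : ℝ := N * C * Real.exp (2 * C * Real.exp 1) with hc2
  set G : ℝ := G1 ^ (N - 2) * G2 with hG
  set c : ℝ := N * (N.factorial * A) * c2 with hc
  have hG0 : 0 ≤ G := by positivity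
  have hkey : ∀ ν : ℕ, c₁ < ν → (ν : ℝ) ^ ν ≤ c * G ^ ν := by
    intro ν hν
    have hν1 : 1 ≤ ν := by omega
    have hν1' : (1 : ℝ) ≤ ν := by exact_mod_cast hν1
    obtain ⟨n, hn⟩ : ∃ n, n = L * ν := ⟨_, rfl⟩
    obtain ⟨m₀, hm₀⟩ : ∃ m₀, m₀ = (N * L - 1) * ν := ⟨_, rfl⟩
    obtain ⟨K, hK⟩ : ∃ K, K = 2 * ν := ⟨_, rfl⟩
    have hm₀' : m₀ + ν = N * n := by
      have h2 : N * n = N * L * ν := by rw [hn]; ring
      rw [h2, hm₀, Nat.sub_mul, one_mul]
      have : ν ≤ N * L * ν := Nat.le_mul_of_pos_left ν (by omega)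
      omega
    have h := core hE i₀ h1 hB hb hBb hβ hβ0 hc₁ a hane ha A hAi L ν n m₀ K (by omega) hν hn hm₀' hK _ rfl
    set A₀ : ℝ := ((N * (n + 1) : ℕ) * (2 * C) ^ (2 * m₀ + 1)) ^ (N * L) with hA₀
    have hA₀0 : 0 ≤ A₀ := by positivity
    have hA₀g : A₀ ≤ g3 ^ ν := A0_le hC hNpos hν1 hn hm₀'
    obtain ⟨u, hu⟩ : ∃ u : ℝ, u = (ν : ℝ) ^ ν := ⟨_, rfl⟩
    rw [← hu]
    have hu1 : 1 ≤ u := by rw [hu]; exact one_le_pow₀ hν1'
    have hu0 : 0 < u := by linarith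
    have hnf : (n.factorial : ℝ) ≤ ((L : ℝ) ^ L) ^ ν * u ^ L := by rw [hn, hu]; exact fac_le L ν
    -- X
    have hX : ((n + K * b : ℕ) + 1) * ((q * (n + K * b : ℕ) + β) ^ K * (n.factorial * A₀)) ≤ G1 ^ ν * u ^ (L + 2) := by
      have hnK : n + K * b = (L + 2 * b) * ν := by rw [hn, hK]; ring
      have h2 : (((n + K * b : ℕ) : ℝ) + 1) ≤ g1 ^ ν := by
        have h3 : (1 : ℝ) ≤ ((L + 2 * b + 1 : ℕ) : ℝ) := by exact_mod_cast (show 1 ≤ L + 2 * b + 1 by omega)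
        refine le_trans ?_ (lin_le_pow h3 hν1)
        rw [hnK]
        push_cast
        nlinarith
      have h4 : (q * ((n + K * b : ℕ) : ℝ) + β) ^ K ≤ (g2 ^ 2) ^ ν * u ^ 2 := by
        have h5 : q * ((n + K * b : ℕ) : ℝ) + β ≤ g2 * ν := by
          rw [hnK, hg2]
          push_cast
          nlinarith
        calc (q * ((n + K * b : ℕ) : ℝ) + β) ^ K ≤ (g2 * ν) ^ K := pow_le_pow_left₀ (by positivity) h5 K
          _ = (g2 ^ 2) ^ ν * u ^ 2 := by
            rw [hK, hu, mul_pow, ← pow_mul, ← pow_mul, mul_comm ν 2]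
      calc ((n + K * b : ℕ) + 1) * ((q * (n + K * b : ℕ) + β) ^ K * (n.factorial * A₀))
          ≤ g1 ^ ν * (((g2 ^ 2) ^ ν * u ^ 2) * ((((L : ℝ) ^ L) ^ ν * u ^ L) * g3 ^ ν)) := by
            refine mul_le_mul h2 ?_ (by positivity) (by positivity)
            refine mul_le_mul h4 ?_ (by positivity) (by positivity)
            exact mul_le_mul hnf hA₀g hA₀0 (by positivity)
        _ = G1 ^ ν * u ^ (L + 2) := by
            rw [hG1, mul_pow g1, mul_pow (g2 ^ 2), mul_pow ((L : ℝ) ^ L), pow_add u]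
            generalize g1 ^ ν = x1
            generalize (g2 ^ 2) ^ ν = x2
            generalize ((L : ℝ) ^ L) ^ ν = x3
            generalize g3 ^ ν = x4
            ring
    have hLL : n.factorial * (N * A₀ * C) * (q : ℝ) ^ K * K.factorial *
        ((2 * C * Real.exp 1) ^ m₀ / m₀.factorial * Real.exp (2 * C * Real.exp 1)) ≤
        c2 * G2 ^ ν * (u ^ (L + 2) / u ^ (N * L - 2)) := by
      have h2 : (K.factorial : ℝ) ≤ (4 : ℝ) ^ ν * u ^ 2 := by
        rw [hK]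
        refine (fac_le 2 ν).trans (le_of_eq ?_)
        rw [hu]
        norm_num
      have h3 : (q : ℝ) ^ K = ((q : ℝ) ^ 2) ^ ν := by rw [hK, pow_mul]
      have h4 : (2 * C * Real.exp 1) ^ m₀ = ((2 * C * Real.exp 1) ^ (N * L - 1)) ^ ν := by rw [hm₀, pow_mul]
      have h5 : u ^ (N * L - 2) ≤ (m₀.factorial : ℝ) := by
        have := fac_ge (R := N * L - 1) (ν := ν) (by omega)
        rw [hm₀, hu, show N * L - 2 = N * L - 1 - 1 by omega]
        exact this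
      have h6 : ((2 * C * Real.exp 1) ^ m₀ / m₀.factorial) ≤ ((2 * C * Real.exp 1) ^ (N * L - 1)) ^ ν / u ^ (N * L - 2) := by
        rw [h4]
        exact div_le_div_of_nonneg_left (by positivity) (by positivity) h5
      calc n.factorial * (N * A₀ * C) * (q : ℝ) ^ K * K.factorial *
            ((2 * C * Real.exp 1) ^ m₀ / m₀.factorial * Real.exp (2 * C * Real.exp 1))
          ≤ (((L : ℝ) ^ L) ^ ν * u ^ L) * (N * g3 ^ ν * C) * ((q : ℝ) ^ 2) ^ ν * ((4 : ℝ) ^ ν * u ^ 2) *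
            (((2 * C * Real.exp 1) ^ (N * L - 1)) ^ ν / u ^ (N * L - 2) * Real.exp (2 * C * Real.exp 1)) := by
            rw [← h3]
            refine mul_le_mul ?_ ?_ (by positivity) (by positivity)
            · refine mul_le_mul ?_ h2 (by positivity) (by positivity)
              refine mul_le_mul_of_nonneg_right ?_ (by positivity)
              refine mul_le_mul hnf ?_ (by positivity) (by positivity)
              refine mul_le_mul_of_nonneg_right ?_ (by positivity)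
              exact mul_le_mul_of_nonneg_left hA₀g (by positivity)
            · exact mul_le_mul_of_nonneg_right h6 (by positivity)
        _ = c2 * G2 ^ ν * (u ^ (L + 2) / u ^ (N * L - 2)) := by
            rw [hG2, hc2, mul_pow, mul_pow, mul_pow, mul_pow, pow_add]; ring
    have hcomb : (1 : ℝ) ≤ N * (N.factorial * (A * (G1 ^ ν * u ^ (L + 2)) ^ (N - 2)) *
        (c2 * G2 ^ ν * (u ^ (L + 2) / u ^ (N * L - 2)))) := by
      refine h.trans ?_
      refine mul_le_mul_of_nonneg_left ?_ (by positivity)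
      refine mul_le_mul ?_ hLL (by positivity) (by positivity)
      refine mul_le_mul_of_nonneg_left ?_ (by positivity)
      refine mul_le_mul_of_nonneg_left ?_ hA0
      exact pow_le_pow_left₀ (by positivity) hX _
    have hexp : u ^ (N * L - 2) = (u ^ (L + 2)) ^ (N - 2) * u ^ (L + 2) * u := by
      rw [← pow_mul, ← pow_add, ← pow_succ]
      congr 1
      obtain ⟨M, rfl⟩ : ∃ M, N = M + 2 := ⟨N - 2, by omega⟩
      simp only [Nat.add_sub_cancel]
      have e1 : (M + 2) * L = (L + 2) * M + (L + 2) + 1 + 2 := by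
        rw [hL]; ring
      omega
    have h7 : N * (N.factorial * (A * (G1 ^ ν * u ^ (L + 2)) ^ (N - 2)) *
        (c2 * G2 ^ ν * (u ^ (L + 2) / u ^ (N * L - 2)))) = c * G ^ ν / u := by
      rw [hexp, hc, hG, mul_pow (G1 ^ ν), mul_pow (G1 ^ (N - 2)), ← pow_mul G1, ← pow_mul G1, mul_comm ν (N - 2)]
      field_simp
    rw [h7, le_div_iff₀ hu0, one_mul] at hcomb
    exact hcomb
  -- contradiction
  obtain ⟨ν, hν1, hν2, hν3⟩ : ∃ ν : ℕ, c₁ < ν ∧ 2 * G ≤ ν ∧ c < 2 ^ ν := by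
    have htend := tendsto_pow_atTop_atTop_of_one_lt (show (1 : ℝ) < 2 by norm_num)
    have h2 := (htend.eventually_gt_atTop c).and (((tendsto_natCast_atTop_atTop (R := ℝ)).eventually_ge_atTop (2 * G)).and
      (Filter.eventually_gt_atTop c₁))
    obtain ⟨ν, h3, h4, h5⟩ := h2.exists
    exact ⟨ν, h5, h4, h3⟩
  have h2 := hkey ν hν1
  have hνpos : (0 : ℝ) < ν := by exact_mod_cast (by omega : 0 < ν)
  rcases hG0.eq_or_lt with h3 | h3
  · rw [← h3, zero_pow (by omega), mul_zero] at h2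
    exact absurd h2 (not_le.2 (by positivity))
  · have h4 : (2 * G) ^ ν ≤ (ν : ℝ) ^ ν := pow_le_pow_left₀ (by positivity) hν2 ν
    rw [mul_pow] at h4
    have h5 : 2 ^ ν * G ^ ν ≤ c * G ^ ν := h4.trans h2
    have h6 := le_of_mul_le_mul_right h5 (by positivity)
    exact absurd h6 (not_le.2 hν3)

/-- the theorem of Siegel and Shidlovskii over `ℚ`, for a family which contains `1` and at the point `1` -/
theorem E_lin {N q : ℕ} {C : ℝ} {y : Fin N → ℚ⟦X⟧} (hE : ESys q C y) (i₀ : Fin N) (h1 : y i₀ = 1)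
    (hLI : LinearIndependent (Polynomial ℚ) y) : LinearIndependent ℚ (fun i => ev 1 (y i)) := by
  rw [Fintype.linearIndependent_iff]
  intro c hc
  obtain ⟨d, hd⟩ := IsLocalization.exist_integer_multiples_of_finset (nonZeroDivisors ℤ) (Finset.univ.image c)
  have hd0 : (d : ℤ) ≠ 0 := nonZeroDivisors.ne_zero d.2
  have hint : ∀ i, ∃ z : ℤ, (z : ℚ) = (d : ℤ) * c i := by
    intro i
    obtain ⟨z, hz⟩ := hd (c i) (Finset.mem_image_of_mem c (Finset.mem_univ i))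
    refine ⟨z, ?_⟩
    rw [← zsmul_eq_mul]
    simpa using hz
  choose z hz using hint
  have hz0 := E_fin hE i₀ h1 hLI z (by
    have h3 : ∀ i, (z i : ℝ) * ev 1 (y i) = ((d : ℤ) : ℝ) * (c i • ev 1 (y i)) := by
      intro i
      have : ((z i : ℤ) : ℝ) = ((d : ℤ) : ℝ) * ((c i : ℚ) : ℝ) := by exact_mod_cast hz i
      rw [this, Rat.smul_def]; ring
    rw [Finset.sum_congr rfl fun i _ => h3 i, ← Finset.mul_sum, hc, mul_zero])
  intro i
  have h5 := hz i
  rw [hz0] at h5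
  simp only [Pi.zero_apply, Int.cast_zero] at h5
  rcases mul_eq_zero.1 h5.symm with h6 | h6
  · exact absurd (by exact_mod_cast h6) hd0
  · exact h6

end Pool.Agent.R352.E
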