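import Pool.Agent.H18.L.R352.E.TowerB

/-!
# Towers of iterated integrals: algebraic independence
-/

set_option autoImplicit false
set_option linter.unusedSectionVars false
set_option linter.unusedSimpArgs false

open MvPolynomial

namespace Pool.Agent.R352.E

section

variable {σ : Type} [Fintype σ] [LinearOrder σ] (t : Tw σ) (q : ℕ)

lemma Tw.lin_zero {b : σ → ℚ} (h : ∀ v ∈ t.V, b v = 0) : t.lin b = 0 := by
  rw [Tw.lin]
  refine Finset.sum_eq_zero fun v hv => ?_
  rw [h v hv, C_0, zero_mul]

lemma Tw.lin_0 : t.lin 0 = 0 := t.lin_zero (fun _ _ => rfl)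

lemma Tw.lin_add (a b : σ → ℚ) : t.lin (a + b) = t.lin a + t.lin b := by
  simp only [Tw.lin, Pi.add_apply, C_add, add_mul, Finset.sum_add_distrib]

lemma Tw.lin_single {u : σ} (hu : u ∈ t.V) (c : ℚ) : t.lin (Pi.single u c) = C c * X u := by
  rw [Tw.lin, Finset.sum_eq_single u]
  · rw [Pi.single_eq_same]
  · intro v _ hv
    rw [Pi.single_eq_of_ne hv, C_0, zero_mul]
  · intro h; exact absurd hu h

lemma Tw.DE_mul (d j : ℕ) (Q : MvPolynomial σ ℚ) :
    t.D q (t.E d j * Q) = t.lam q d j * (t.E d j * Q) + t.E d j * t.D q Q := by
  rw [Derivation.leibniz, t.D_E]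
  simp only [smul_eq_mul]
  ring

theorem Tw.L (hq : 1 ≤ q) (d j : ℕ) : ∀ (k : ℕ) (G : MvPolynomial σ ℚ) (a : σ → ℚ) (r : Polynomial ℚ), t.Dg k G →
    t.D q G = t.lam q d j * G + t.E d j * (t.lin a + Polynomial.aeval (X t.w) r) →
    ∃ (c : ℚ) (b : σ → ℚ), G = t.E d j * (C c + t.lin b) := by
  intro k
  induction k with
  | zero =>
    intro G a r h0 _
    have h1 : G = 0 := h0
    exact ⟨0, 0, by rw [h1, t.lin_0, C_0, add_zero, mul_zero]⟩
  | succ k ihk =>
    have inner : ∀ (n : ℕ) (G : MvPolynomial σ ℚ) (a : σ → ℚ) (r : Polynomial ℚ), t.Dg (k + 1) G →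
        (t.V.filter (fun v => pderiv v G ≠ 0)).card = n →
        t.D q G = t.lam q d j * G + t.E d j * (t.lin a + Polynomial.aeval (X t.w) r) →
        ∃ (c : ℚ) (b : σ → ℚ), G = t.E d j * (C c + t.lin b) := by
      intro n
      induction n using Nat.strong_induction_on with
      | _ n ihn =>
        intro G a r hDg hcard hG
        rcases (t.V.filter (fun v => pderiv v G ≠ 0)).eq_empty_or_nonempty with hS | hS
        · have hV : ∀ v, v < t.w → pderiv v G = 0 := by
            intro v hv
            by_contra hne
            have : v ∈ t.V.filter (fun v => pderiv v G ≠ 0) := Finset.mem_filter.2 ⟨t.mem_V.2 hv, hne⟩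
            rw [hS] at this
            exact absurd this (Finset.notMem_empty v)
          obtain ⟨c, hc⟩ := t.base q hq hV hG
          exact ⟨c, 0, by rw [t.lin_0, add_zero, hc]⟩
        · set u := (t.V.filter (fun v => pderiv v G ≠ 0)).min' hS with hu
          have hus := Finset.min'_mem _ hS
          rw [← hu, Finset.mem_filter] at hus
          obtain ⟨huV, huG⟩ := hus
          have huw := t.mem_V.1 huV
          have hsucc : ∀ v, v < t.w → t.pr v = some u → pderiv v G = 0 := by
            intro v hv hp
            by_contra hne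
            have hvS : v ∈ t.V.filter (fun v => pderiv v G ≠ 0) := Finset.mem_filter.2 ⟨t.mem_V.2 hv, hne⟩
            have h1 := Finset.min'_le _ v hvS
            rw [← hu] at h1
            exact absurd (t.hpr v u hv hp).1 (not_lt.2 h1)
          -- the derivative with respect to `u`
          have hcomm : t.D q (pderiv u G) = pderiv u (t.D q G) := by
            rw [t.comm q u G, Finset.sum_eq_zero, add_zero]
            intro i _
            by_cases hi : i < t.w ∧ t.pr i = some u
            · rw [hsucc i hi.1 hi.2, mul_zero]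
            · rw [t.pderiv_D_X q huw hi, zero_mul]
          have hH : t.D q (pderiv u G) = t.lam q d j * pderiv u G +
              t.E d j * (t.lin 0 + Polynomial.aeval (X t.w) (Polynomial.C (a u))) := by
            rw [hcomm, hG, map_add, pderiv_mul, pderiv_mul, t.pderiv_lam q huw, t.pderiv_E huw, map_add,
              t.pderiv_lin huV, pderiv_aeval huw.ne', t.lin_0, Polynomial.aeval_C]
            simp only [zero_mul, zero_add, add_zero]
            rfl
          obtain ⟨c, b, hcb⟩ := ihk _ 0 (Polynomial.C (a u)) (hDg u huw) hH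
          have hb : ∀ v ∈ t.V, b v = 0 := by
            apply t.indep q hq (a := a u)
            rw [← t.D_lin]
            have h1 : t.D q (pderiv u G) = t.lam q d j * pderiv u G + t.E d j * t.D q (t.lin b) := by
              rw [hcb, t.DE_mul, map_add]
              simp
            rw [hH, t.lin_0, zero_add, Polynomial.aeval_C] at h1
            have h2 := mul_left_cancel₀ (t.E_ne d j) (add_left_cancel h1)
            exact h2.symm
          rw [t.lin_zero hb, add_zero] at hcb
          -- subtract
          set G' := G - t.E d j * C c * X u with hG'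
          have hpd : ∀ v, v < t.w → pderiv v G' = if v = u then 0 else pderiv v G := by
            intro v hv
            have h1 : pderiv v (t.E d j * C c) = 0 := by rw [pderiv_mul, t.pderiv_E hv, pderiv_C]; simp
            rw [hG', map_sub, pderiv_mul, h1, zero_mul, zero_add]
            split_ifs with h
            · rw [h, pderiv_X_self, mul_one, hcb, sub_self]
            · rw [pderiv_X_of_ne (Ne.symm h), mul_zero, sub_zero]
          have hDg' : t.Dg (k + 1) G' := by
            intro v hv
            rw [hpd v hv]
            split_ifs with h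
            · exact t.Dg_zero k
            · exact hDg v hv
          have hcard' : (t.V.filter (fun v => pderiv v G' ≠ 0)).card < n := by
            rw [← hcard]
            apply Finset.card_lt_card
            rw [Finset.ssubset_iff_of_subset]
            · refine ⟨u, Finset.mem_filter.2 ⟨huV, huG⟩, ?_⟩
              rw [Finset.mem_filter]
              rintro ⟨_, h⟩
              rw [hpd u huw, if_pos rfl] at h
              exact h rfl
            · intro v hv
              rw [Finset.mem_filter] at hv ⊢
              refine ⟨hv.1, ?_⟩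
              have h1 := hv.2
              rw [hpd v (t.mem_V.1 hv.1)] at h1
              split_ifs at h1 with h
              · exact absurd rfl h1
              · exact h1
          obtain ⟨a', r', har⟩ : ∃ (a' : σ → ℚ) (r' : Polynomial ℚ), t.lin a' + Polynomial.aeval (X t.w) r' =
              t.lin a + Polynomial.aeval (X t.w) r - C c * (C (q : ℚ) * t.g u) := by
            cases hp : t.pr u with
            | some u' =>
              have hu'w := (t.hpr u u' huw hp).2
              refine ⟨a + Pi.single u' (-(c * q)), r, ?_⟩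
              rw [t.lin_add, t.lin_single (t.mem_V.2 hu'w), Tw.g, hp]
              simp only [C_neg, C_mul]
              ring
            | none =>
              refine ⟨a, r - Polynomial.C (c * q) * (1 - Polynomial.X ^ t.m u), ?_⟩
              rw [Tw.g, hp]
              simp only [map_sub, map_mul, map_one, map_pow, Polynomial.aeval_C, Polynomial.aeval_X]
              simp only [MvPolynomial.algebraMap_eq]
              ring
          have hGD : t.D q G' = t.lam q d j * G' + t.E d j * (t.lin a' + Polynomial.aeval (X t.w) r') := by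
            have h1 : t.D q (t.E d j * C c * X u) = t.lam q d j * (t.E d j * C c * X u) +
                t.E d j * (C c * (C (q : ℚ) * t.g u)) := by
              rw [mul_assoc, t.DE_mul]
              congr 1
              rw [Derivation.leibniz, t.D_v q huw, derivation_C]
              simp only [smul_eq_mul, mul_zero, add_zero]
            rw [har, hG', map_sub, hG, h1]
            ring
          obtain ⟨c', b', hcb'⟩ := ihn _ hcard' G' a' r' hDg' rfl hGD
          refine ⟨c', b' + Pi.single u c, ?_⟩
          rw [t.lin_add, t.lin_single huV]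
          have h2 : G = G' + t.E d j * C c * X u := by rw [hG']; ring
          rw [h2, hcb']
          ring
    intro G a r hDg hG
    exact inner _ G a r hDg rfl hG

/-- semi-invariants are monomials in `z`, `w` -/
theorem Tw.semi (hq : 1 ≤ q) {d j : ℕ} {P : MvPolynomial σ ℚ} (hP : t.D q P = t.lam q d j * P) :
    ∃ c : ℚ, P = t.E d j * C c := by
  obtain ⟨k, hk⟩ := t.Dg_exists P
  obtain ⟨c, b, hcb⟩ := t.L q hq d j k P 0 0 hk (by
    rw [hP, t.lin_0, map_zero, add_zero, mul_zero, add_zero])
  have hb : ∀ v ∈ t.V, b v = 0 := by
    apply t.indep q hq (a := 0)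
    rw [← t.D_lin, C_0]
    have h1 : t.D q P = t.lam q d j * P + t.E d j * t.D q (t.lin b) := by
      rw [hcb, t.DE_mul, map_add]
      simp
    rw [hP] at h1
    have h2 : t.E d j * t.D q (t.lin b) = 0 := by
      have := h1
      rw [← sub_eq_zero] at this
      linear_combination -this
    rcases mul_eq_zero.1 h2 with h3 | h3
    · exact absurd h3 (t.E_ne d j)
    · exact h3
  exact ⟨c, by rw [hcb, t.lin_zero hb, add_zero]⟩

/-- one step of the descent: the exponents decrease in the lexicographic order -/
lemma Tw.step {M : σ →₀ ℕ} {P : MvPolynomial σ ℚ} (hP : ∀ s, coeff s P ≠ 0 → toLex s ≤ toLex M) (s : σ →₀ ℕ)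
    (hs : coeff s (t.D q P - t.lam q (M t.z) (M t.w) * P) ≠ 0) : toLex s < toLex M := by
  classical
  by_contra hlt
  apply hs
  -- comparison lemma
  have hcmp : ∀ s' : σ →₀ ℕ, toLex s < toLex s' → coeff s' P = 0 := by
    intro s' h
    by_contra hne
    exact hlt (h.trans_le (hP s' hne))
  have hraise : ∀ (v : σ) (x : σ →₀ ℕ), v < t.w → (∀ i ≤ v, x i = 0) → (x ≤ s) →
      coeff (s - x + Finsupp.single v 1) P = 0 := by
    intro v x hv hx hxs
    apply hcmp
    rw [Finsupp.Lex.lt_iff]
    refine ⟨v, fun i hi => ?_, ?_⟩
    · simp only [ofLex_toLex, Finsupp.add_apply, Finsupp.tsub_apply, Finsupp.single_apply]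
      rw [hx i hi.le, if_neg hi.ne']; omega
    · simp only [ofLex_toLex, Finsupp.add_apply, Finsupp.tsub_apply, Finsupp.single_apply, if_true]
      rw [hx v le_rfl]; omega
  rw [t.D_eq q P, ← Finset.add_sum_erase _ _ (Finset.mem_univ t.z),
      ← Finset.add_sum_erase _ _ (Finset.mem_erase.2 ⟨t.hwz.ne, Finset.mem_univ t.w⟩), t.D_z, t.D_w]
  have hrest : coeff s (∑ i ∈ (Finset.univ.erase t.z).erase t.w, t.D q (X i) * pderiv i P) = 0 := by
    rw [coeff_sum]
    refine Finset.sum_eq_zero fun i hi => ?_
    rw [Finset.mem_erase, Finset.mem_erase] at hi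
    have hiw : i < t.w := lt_of_le_of_ne (t.htop i hi.2.1) hi.1
    rw [t.D_v q hiw, mul_assoc, coeff_C_mul]
    have h0 : coeff s (t.g i * pderiv i P) = 0 := by
      rw [Tw.g]
      cases hp : t.pr i with
      | some u =>
        simp only
        obtain ⟨hiu, huw⟩ := t.hpr i u hiw hp
        rw [coeff_X_mul']
        split_ifs with h
        · rw [coeff_pderiv, hraise i (Finsupp.single u 1) hiw, zero_mul]
          · intro l hl
            rw [Finsupp.single_apply, if_neg]
            exact fun h => absurd (h ▸ hl) (not_le.2 hiu)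
          · rw [Finsupp.single_le_iff]
            have := Finsupp.mem_support_iff.1 h
            omega
        · rfl
      | none =>
        simp only
        rw [sub_mul, one_mul, coeff_sub, coeff_pderiv, X_pow_eq_monomial, coeff_monomial_mul']
        have h1 := hraise i 0 hiw (fun _ _ => rfl) (by simp)
        rw [tsub_zero] at h1
        rw [h1, zero_mul, zero_sub]
        split_ifs with h
        · rw [coeff_pderiv, hraise i (Finsupp.single t.w (t.m i)) hiw, zero_mul, mul_zero, neg_zero]
          · intro l hl
            rw [Finsupp.single_apply, if_neg]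
            exact fun h => absurd (h ▸ hl) (not_le.2 hiw)
          · exact h
        · simp
    rw [h0, mul_zero]
  rw [coeff_sub, coeff_add, coeff_add, hrest, add_zero, mul_assoc, coeff_C_mul, coeff_X_mul_pderiv, neg_mul, coeff_neg,
    mul_assoc, coeff_X_mul' s t.z (X t.w * pderiv t.w P), Tw.lam, sub_mul, coeff_sub, coeff_C_mul,
    mul_assoc (C ((M t.w : ℕ) : ℚ)), coeff_C_mul, coeff_X_mul' s t.z P]
  have hsz : ((s t.z : ℚ) - M t.z) * coeff s P = 0 := by
    by_cases h : coeff s P = 0
    · rw [h, mul_zero]
    · have h1 := hP s h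
      have h2 : toLex s = toLex M := le_antisymm h1 (not_lt.1 hlt)
      have h3 : s = M := toLex.injective h2
      rw [h3, sub_self, zero_mul]
  by_cases h0 : s t.z = 0
  · have h2 : t.z ∉ s.support := by rw [Finsupp.notMem_support_iff]; exact h0
    rw [if_neg h2, if_neg h2]
    linear_combination (q : ℚ) * hsz
  · have h2 : t.z ∈ s.support := by rw [Finsupp.mem_support_iff]; exact h0
    rw [if_pos h2, if_pos h2, coeff_X_mul_pderiv]
    have h3 : (s - Finsupp.single t.z 1 : σ →₀ ℕ) t.w = s t.w := by
      rw [Finsupp.tsub_apply, Finsupp.single_apply, if_neg t.hwz.ne', Nat.sub_zero]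
    rw [h3]
    have hsw : ((s t.w : ℚ) - M t.w) * coeff (s - Finsupp.single t.z 1) P = 0 := by
      by_cases h : coeff (s - Finsupp.single t.z 1) P = 0
      · rw [h, mul_zero]
      · by_cases hw : s t.w = M t.w
        · rw [hw, sub_self, zero_mul]
        · exfalso
          have h1 := hP _ h
          have hne : toLex (s - Finsupp.single t.z 1) ≠ toLex M := by
            intro h4
            have h5 := toLex.injective h4
            apply hw
            rw [← h3, h5]
          have h4 := lt_of_le_of_ne h1 hne
          rw [Finsupp.Lex.lt_iff] at h4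
          obtain ⟨i, hi1, hi2⟩ := h4
          simp only [ofLex_toLex] at hi1 hi2
          have hiz : i < t.z := by
            rcases lt_or_ge i t.z with h5 | h5
            · exact h5
            · exfalso
              apply hw
              rw [← h3]
              exact hi1 t.w (t.hwz.trans_le h5)
          apply hlt
          rw [Finsupp.Lex.lt_iff]
          refine ⟨i, fun l hl => ?_, ?_⟩
          · have h6 := hi1 l hl
            rw [Finsupp.tsub_apply, Finsupp.single_apply, if_neg (hl.trans hiz).ne', Nat.sub_zero] at h6
            exact h6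
          · rw [Finsupp.tsub_apply, Finsupp.single_apply, if_neg hiz.ne', Nat.sub_zero] at hi2
            exact hi2
    linear_combination (q : ℚ) * hsz - hsw

/-- a nonzero subspace stable under the derivation and the multiplication by `z` contains a semi-invariant -/
theorem Tw.exists_semi (I : Ideal (MvPolynomial σ ℚ)) (hI : ∀ P ∈ I, t.D q P ∈ I) (h0 : I ≠ ⊥) :
    ∃ P ∈ I, P ≠ 0 ∧ ∃ d j, t.D q P = t.lam q d j * P := by
  classical
  have hwf : WellFounded (fun a b : Lex (σ →₀ ℕ) => a < b) := by
    haveI : WellFoundedLT (Lex (σ →₀ ℕ)) := Finsupp.Lex.wellFoundedLT_of_finite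
    exact wellFounded_lt
  have key : ∀ M : Lex (σ →₀ ℕ), ∀ P ∈ I, P ≠ 0 → (∀ s, coeff s P ≠ 0 → toLex s ≤ M) →
      ∃ P ∈ I, P ≠ 0 ∧ ∃ d j, t.D q P = t.lam q d j * P := by
    intro M
    induction M using hwf.induction with
    | _ M ih =>
      intro P hPI hP0 hPM
      set M' : σ →₀ ℕ := ofLex M with hM'
      set P1 := t.D q P - t.lam q (M' t.z) (M' t.w) * P with hP1
      by_cases h1 : P1 = 0
      · exact ⟨P, hPI, hP0, M' t.z, M' t.w, by rw [← sub_eq_zero]; exact h1⟩
      · have hP1I : P1 ∈ I := I.sub_mem (hI P hPI) (I.mul_mem_left _ hPI)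
        have hstep := fun s => t.step q (M := M') (P := P) hPM s
        -- the maximal exponent of P1
        have hne : P1.support.Nonempty := support_nonempty.2 h1
        have hne' : (P1.support.image toLex).Nonempty := hne.image _
        set M1 := (P1.support.image (toLex : (σ →₀ ℕ) → Lex (σ →₀ ℕ))).max' hne' with hM1
        have hM1mem := Finset.max'_mem _ hne'
        rw [← hM1, Finset.mem_image] at hM1mem
        obtain ⟨s1, hs1, hs1M⟩ := hM1mem
        have hlt : M1 < M := by
          rw [← hs1M]
          exact hstep s1 (mem_support_iff.1 hs1)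
        refine ih M1 hlt P1 hP1I h1 fun s hs => ?_
        exact Finset.le_max' _ _ (Finset.mem_image_of_mem _ (mem_support_iff.2 hs))
  obtain ⟨P, hPI, hP0⟩ := (Submodule.ne_bot_iff I).1 h0
  have hne : P.support.Nonempty := support_nonempty.2 hP0
  have hne' : (P.support.image (toLex : (σ →₀ ℕ) → Lex (σ →₀ ℕ))).Nonempty := hne.image _
  exact key ((P.support.image (toLex : (σ →₀ ℕ) → Lex (σ →₀ ℕ))).max' hne') P hPI hP0 fun s hs =>
    Finset.le_max' _ _ (Finset.mem_image_of_mem _ (mem_support_iff.2 hs))

/-- the main theorem on towers: a homomorphism compatible with the derivation, injective on the monomials in `z`, `w`,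
is injective -/
theorem Tw.injective (hq : 1 ≤ q) {A : Type} [CommRing A] (e : MvPolynomial σ ℚ →+* A) (θ : A →+ A)
    (hθ : ∀ P, e (t.D q P) = θ (e P)) (hE : ∀ (d j : ℕ) (c : ℚ), c ≠ 0 → e (t.E d j * C c) ≠ 0) :
    Function.Injective e := by
  rw [RingHom.injective_iff_ker_eq_bot]
  by_contra hne
  obtain ⟨P, hPI, hP0, d, j, hPD⟩ := t.exists_semi q (RingHom.ker e) (fun P hP => by
    rw [RingHom.mem_ker] at hP ⊢
    rw [hθ, hP, map_zero]) hne
  obtain ⟨c, hc⟩ := t.semi q hq hPD
  have hc0 : c ≠ 0 := by
    rintro rfl
    apply hP0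
    rw [hc, C_0, mul_zero]
  apply hE d j c hc0
  rw [← hc]
  exact hPI

end

end Pool.Agent.R352.E
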