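import Pool.Agent.H18.L.R352.E.Fin
import Pool.Agent.H18.L.R352.E.TowerC

/-!
# E-functions: the class of E-functions, the concrete functions
-/

set_option autoImplicit false

open PowerSeries Finset.HasAntidiagonal

namespace Pool.Agent.R352.E

open Pool.Agent.Y113

/-- the arithmetic conditions of Siegel's definition of E-functions, for rational coefficients (strict form) -/
def EF (f : ℚ⟦X⟧) : Prop := ∃ C : ℝ, 1 ≤ C ∧ (∀ m, |((cf m f : ℚ) : ℝ)| ≤ C ^ (m + 1)) ∧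
  ∀ m, ∃ d : ℕ, 0 < d ∧ (d : ℝ) ≤ C ^ (m + 1) ∧ ∀ j ≤ m, ∃ a : ℤ, (d : ℚ) * cf j f = a

lemma EF.mul {f g : ℚ⟦X⟧} (hf : EF f) (hg : EF g) : EF (f * g) := by
  obtain ⟨C1, hC1, h1, d1⟩ := hf
  obtain ⟨C2, hC2, h2, d2⟩ := hg
  set C := max C1 C2 with hC
  have hC0 : 1 ≤ C := hC1.trans (le_max_left _ _)
  have h1' : ∀ m, |((cf m f : ℚ) : ℝ)| ≤ C ^ (m + 1) := fun m =>
    (h1 m).trans (pow_le_pow_left₀ (by linarith) (le_max_left _ _) _)
  have h2' : ∀ m, |((cf m g : ℚ) : ℝ)| ≤ C ^ (m + 1) := fun m =>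
    (h2 m).trans (pow_le_pow_left₀ (by linarith) (le_max_right _ _) _)
  have hC2' : C ^ 2 ≤ 2 * C ^ 2 := by nlinarith [sq_nonneg C]
  refine ⟨2 * C ^ 2, by nlinarith, fun m => ?_, fun m => ?_⟩
  · rw [cf_mul]
    push_cast
    refine (Finset.abs_sum_le_sum_abs _ _).trans ?_
    have h3 : ∀ p ∈ antidiagonal m, |(m.choose p.1 : ℝ) * (((cf p.1 f : ℚ) : ℝ) * ((cf p.2 g : ℚ) : ℝ))| ≤
        (m.choose p.1 : ℝ) * C ^ (m + 2) := by
      intro p hp
      rw [Finset.HasAntidiagonal.mem_antidiagonal] at hp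
      rw [abs_mul, abs_mul, Nat.abs_cast]
      refine mul_le_mul_of_nonneg_left ?_ (by positivity)
      refine (mul_le_mul (h1' _) (h2' _) (abs_nonneg _) (by positivity)).trans (le_of_eq ?_)
      rw [← pow_add]; congr 1; omega
    refine (Finset.sum_le_sum h3).trans ?_
    rw [← Finset.sum_mul]
    have h4 : ∑ p ∈ antidiagonal m, (m.choose p.1 : ℝ) = 2 ^ m := by
      rw [Finset.Nat.sum_antidiagonal_eq_sum_range_succ_mk]
      exact_mod_cast Nat.sum_range_choose m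
    rw [h4, mul_pow, ← pow_mul]
    refine mul_le_mul (pow_le_pow_right₀ (by norm_num) (by omega)) (pow_le_pow_right₀ hC0 (by omega))
      (by positivity) (by positivity)
  · obtain ⟨e1, he1, he1C, he1i⟩ := d1 m
    obtain ⟨e2, he2, he2C, he2i⟩ := d2 m
    refine ⟨e1 * e2, Nat.mul_pos he1 he2, ?_, fun j hj => ?_⟩
    · push_cast
      calc (e1 : ℝ) * e2 ≤ C ^ (m + 1) * C ^ (m + 1) :=
            mul_le_mul (he1C.trans (pow_le_pow_left₀ (by linarith) (le_max_left _ _) _))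
              (he2C.trans (pow_le_pow_left₀ (by linarith) (le_max_right _ _) _)) (by positivity) (by positivity)
        _ = (C ^ 2) ^ (m + 1) := by rw [← mul_pow, ← sq]
        _ ≤ (2 * C ^ 2) ^ (m + 1) := pow_le_pow_left₀ (by positivity) hC2' _
    · choose! a ha using he1i
      choose! b hb using he2i
      refine ⟨∑ p ∈ antidiagonal j, (j.choose p.1 : ℤ) * (a p.1 * b p.2), ?_⟩
      rw [cf_mul, Finset.mul_sum]
      push_cast
      refine Finset.sum_congr rfl fun p hp => ?_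
      rw [Finset.HasAntidiagonal.mem_antidiagonal] at hp
      rw [← ha p.1 (by omega), ← hb p.2 (by omega)]
      ring

lemma EF.one : EF 1 := by
  refine ⟨1, le_rfl, fun m => ?_, fun m => ⟨1, one_pos, by simp, fun j _ => ?_⟩⟩
  · rw [cf, coeff_one]
    split_ifs with h
    · rw [h]; simp
    · simp
  · rw [cf, coeff_one]
    split_ifs with h
    · exact ⟨1, by rw [h]; simp⟩
    · exact ⟨0, by simp⟩

lemma EF.pow {f : ℚ⟦X⟧} (hf : EF f) (n : ℕ) : EF (f ^ n) := by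
  induction n with
  | zero => rw [pow_zero]; exact EF.one
  | succ n ih => rw [pow_succ]; exact ih.mul hf

lemma EF.prod {ι : Type} (s : Finset ι) (f : ι → ℚ⟦X⟧) (hf : ∀ i ∈ s, EF (f i)) : EF (∏ i ∈ s, f i) := by
  classical
  induction s using Finset.induction_on with
  | empty => rw [Finset.prod_empty]; exact EF.one
  | insert a s ha ih =>
    rw [Finset.prod_insert ha]
    exact (hf a (Finset.mem_insert_self _ _)).mul (ih fun i hi => hf i (Finset.mem_insert_of_mem hi))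

lemma EF.cv {f : ℚ⟦X⟧} (hf : EF f) : Cv 1 f := by
  obtain ⟨C, hC, h, _⟩ := hf
  exact Cv_of_cf (by linarith) h

/-- a common constant for a finite family -/
lemma EF.common {N : ℕ} {y : Fin N → ℚ⟦X⟧} (hy : ∀ i, EF (y i)) : ∃ C : ℝ, 1 ≤ C ∧
    (∀ i m, |((cf m (y i) : ℚ) : ℝ)| ≤ C ^ (m + 1)) ∧
    (∀ m, ∃ d : ℕ, 0 < d ∧ (d : ℝ) ≤ C ^ (m + 1) ∧ ∀ i, ∀ j ≤ m, ∃ a : ℤ, (d : ℚ) * cf j (y i) = a) := by
  choose C hC h1 h2 using hy
  have hle : ∀ i, C i ≤ ∏ i, C i := by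
    intro i
    rw [← Finset.mul_prod_erase Finset.univ C (Finset.mem_univ i)]
    refine le_mul_of_one_le_right (by linarith [hC i]) ?_
    exact Finset.prod_induction _ (fun x : ℝ => 1 ≤ x) (fun a b ha hb => one_le_mul_of_one_le_of_one_le ha hb) le_rfl
      fun j _ => hC j
  have hone : 1 ≤ ∏ i, C i :=
    Finset.prod_induction _ (fun x : ℝ => 1 ≤ x) (fun a b ha hb => one_le_mul_of_one_le_of_one_le ha hb) le_rfl
      fun j _ => hC j
  refine ⟨∏ i, C i, hone, fun i m => (h1 i m).trans (pow_le_pow_left₀ (by linarith [hC i]) (hle i) _), fun m => ?_⟩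
  choose d hd0 hdC hdi using fun i => h2 i m
  refine ⟨∏ i, d i, Finset.prod_pos fun i _ => hd0 i, ?_, fun i j hj => ?_⟩
  · push_cast
    rw [← Finset.prod_pow]
    exact Finset.prod_le_prod (fun _ _ => by positivity) fun i _ => hdC i
  · obtain ⟨a, ha⟩ := hdi i j hj
    refine ⟨(∏ i ∈ Finset.univ.erase i, (d i : ℤ)) * a, ?_⟩
    rw [← Finset.mul_prod_erase Finset.univ d (Finset.mem_univ i)]
    push_cast
    rw [← ha]
    ring

/-- `exp (- X / q)` -/
noncomputable def wS (q : ℕ) : ℚ⟦X⟧ := PowerSeries.mk fun m => (-1 / (q : ℚ)) ^ m / m.factorial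

/-- `∑_{m ≥ 1} (-1)^(m-1) x^m / (m! m^l) X^m`, the function `E_l (x X)` -/
noncomputable def ES (l : ℕ) (x : ℚ) : ℚ⟦X⟧ :=
  PowerSeries.mk fun m => if m = 0 then 0 else -(-x) ^ m / (m.factorial * (m : ℚ) ^ l)

lemma wS_eq (q : ℕ) : wS q = PowerSeries.rescale (-1 / (q : ℚ)) (PowerSeries.exp ℚ) := by
  ext m
  rw [wS, coeff_mk, coeff_rescale, coeff_exp]
  simp [div_eq_mul_inv]

lemma wS_pow (q m : ℕ) : wS q ^ m = PowerSeries.rescale (-(m : ℚ) / q) (PowerSeries.exp ℚ) := by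
  rw [wS_eq, ← map_pow, exp_pow_eq_rescale_exp, rescale_rescale]
  congr 1
  ring

lemma coeff_wS_pow (q m n : ℕ) : coeff n (wS q ^ m) = (-(m : ℚ) / q) ^ n / n.factorial := by
  rw [wS_pow, coeff_rescale, coeff_exp]
  simp [div_eq_mul_inv]

lemma wS_ne (q : ℕ) : wS q ≠ 0 := by
  intro h
  have := congrArg (coeff 0) h
  simp [wS] at this

lemma EF_wS (q : ℕ) (hq : 1 ≤ q) : EF (wS q) := by
  have hq1 : (1 : ℝ) ≤ q := by exact_mod_cast hq
  have hq0 : (q : ℚ) ≠ 0 := by exact_mod_cast (by omega : q ≠ 0)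
  have hcf : ∀ m, cf m (wS q) = (-1 / (q : ℚ)) ^ m := by
    intro m
    rw [cf, wS, coeff_mk]
    have : (m.factorial : ℚ) ≠ 0 := by exact_mod_cast m.factorial_ne_zero
    field_simp
  refine ⟨q, hq1, fun m => ?_, fun m => ⟨q ^ m, by positivity, ?_, fun j hj => ?_⟩⟩
  · rw [hcf]
    push_cast
    rw [abs_pow, abs_div, abs_neg, abs_one, abs_of_nonneg (by positivity : (0 : ℝ) ≤ q)]
    calc (1 / (q : ℝ)) ^ m ≤ 1 := pow_le_one₀ (by positivity) (by rw [div_le_one (by linarith)]; exact hq1)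
      _ ≤ (q : ℝ) ^ (m + 1) := one_le_pow₀ hq1
  · push_cast
    exact pow_le_pow_right₀ hq1 (by omega)
  · refine ⟨(-1) ^ j * (q : ℤ) ^ (m - j), ?_⟩
    rw [hcf]
    push_cast
    rw [div_pow]
    have : (q : ℚ) ^ m = q ^ (m - j) * q ^ j := by rw [← pow_add]; congr 1; omega
    rw [this]
    field_simp

lemma lcm_bound (n : ℕ) : (Nat.lcmUpto n : ℝ) ≤ (2 ^ 8) ^ n := by
  have h1 := Chebyshev.psi_eq_log_lcmUpto n
  have h2 := Chebyshev.psi_le_const_mul_self (x := (n : ℝ)) (by positivity)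
  rw [h1] at h2
  have h3 : (0 : ℝ) < Nat.lcmUpto n := by exact_mod_cast Nat.lcmUpto_pos n
  rw [← Real.exp_log h3]
  have h4 : Real.log 4 + 4 ≤ 8 * Real.log 2 := by
    have e1 : Real.log 4 = 2 * Real.log 2 := by
      rw [show (4 : ℝ) = 2 ^ 2 by norm_num, Real.log_pow]
      norm_num
    have e2 := Real.log_two_gt_d9
    rw [e1]
    linarith
  have h5 : Real.log (Nat.lcmUpto n) ≤ n * (8 * Real.log 2) := by
    refine h2.trans ?_
    rw [mul_comm]
    exact mul_le_mul_of_nonneg_left h4 (by positivity)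
  calc Real.exp (Real.log (Nat.lcmUpto n)) ≤ Real.exp (n * (8 * Real.log 2)) := Real.exp_le_exp.2 h5
    _ = _ := by
      rw [Real.exp_nat_mul, show (8 : ℝ) * Real.log 2 = ((8 : ℕ) : ℝ) * Real.log 2 by norm_num, Real.exp_nat_mul,
        Real.exp_log (by norm_num)]

lemma EF_ES (l a q : ℕ) (hq : 1 ≤ q) : EF (ES l ((a : ℚ) / q)) := by
  have hq1 : (1 : ℝ) ≤ q := by exact_mod_cast hq
  have hq0 : (q : ℚ) ≠ 0 := by exact_mod_cast (by omega : q ≠ 0)
  have hcf : ∀ m, cf m (ES l ((a : ℚ) / q)) = if m = 0 then 0 else -(-((a : ℚ) / q)) ^ m / (m : ℚ) ^ l := by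
    intro m
    rw [cf, ES, coeff_mk]
    have : (m.factorial : ℚ) ≠ 0 := by exact_mod_cast m.factorial_ne_zero
    split_ifs
    · rw [mul_zero]
    · field_simp
  set C : ℝ := (a + 1) * q * (2 ^ 8) ^ l with hC
  have hb1 : (1 : ℝ) ≤ (2 ^ 8 : ℝ) ^ l := one_le_pow₀ (by norm_num)
  have ha1 : (1 : ℝ) ≤ (a : ℝ) + 1 := by linarith [show (0 : ℝ) ≤ a by positivity]
  have haq : (1 : ℝ) ≤ (a + 1) * q := one_le_mul_of_one_le_of_one_le ha1 hq1
  have hC1 : 1 ≤ C := one_le_mul_of_one_le_of_one_le haq hb1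
  refine ⟨C, hC1, fun m => ?_, fun m => ⟨q ^ m * Nat.lcmUpto m ^ l, ?_, ?_, fun j hj => ?_⟩⟩
  · rw [hcf]
    split_ifs with h
    · simp only [Rat.cast_zero, abs_zero]; positivity
    · push_cast
      rw [abs_div, abs_neg, abs_pow, abs_neg, abs_div, Nat.abs_cast, Nat.abs_cast, abs_pow, Nat.abs_cast]
      have hm1 : (1 : ℝ) ≤ (m : ℝ) ^ l := one_le_pow₀ (by exact_mod_cast Nat.pos_of_ne_zero h)
      refine (div_le_self (by positivity) hm1).trans ?_
      have h2 : (a : ℝ) / q ≤ C := by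
        calc (a : ℝ) / q ≤ a := div_le_self (by positivity) hq1
          _ ≤ (a + 1) * q := by nlinarith
          _ ≤ C := le_mul_of_one_le_right (by positivity) hb1
      calc ((a : ℝ) / q) ^ m ≤ C ^ m := pow_le_pow_left₀ (by positivity) h2 m
        _ ≤ C ^ (m + 1) := pow_le_pow_right₀ hC1 (by omega)
  · exact Nat.mul_pos (by positivity) (pow_pos (Nat.lcmUpto_pos m) _)
  · push_cast
    have h2 : (Nat.lcmUpto m : ℝ) ^ l ≤ ((2 ^ 8 : ℝ) ^ l) ^ m := by
      rw [← pow_mul, mul_comm l m, pow_mul]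
      exact pow_le_pow_left₀ (by positivity) (lcm_bound m) l
    calc (q : ℝ) ^ m * (Nat.lcmUpto m : ℝ) ^ l ≤ ((a + 1) * q) ^ m * ((2 ^ 8 : ℝ) ^ l) ^ m := by
          refine mul_le_mul ?_ h2 (by positivity) (by positivity)
          exact pow_le_pow_left₀ (by positivity) (le_mul_of_one_le_left (by positivity) ha1) m
      _ = C ^ m := by rw [hC, mul_pow (((a : ℝ) + 1) * q)]
      _ ≤ C ^ (m + 1) := pow_le_pow_right₀ hC1 (by omega)
  · rw [hcf]
    split_ifs with h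
    · exact ⟨0, by simp⟩
    · have hd : j ∣ Nat.lcmUpto m := Finset.dvd_lcm (f := id) (Finset.mem_Icc.2 ⟨by omega, hj⟩)
      obtain ⟨c, hc⟩ := hd
      refine ⟨-((-1) ^ j * (a : ℤ) ^ j * (q : ℤ) ^ (m - j) * (c : ℤ) ^ l), ?_⟩
      have hj0 : (j : ℚ) ≠ 0 := by exact_mod_cast h
      have h3 : (q : ℚ) ^ m = q ^ (m - j) * q ^ j := by rw [← pow_add]; congr 1; omega
      push_cast
      rw [hc]
      push_cast
      rw [h3, mul_pow, neg_pow, div_pow]
      field_simp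

end Pool.Agent.R352.E
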