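import Pool.Agent.H18.L.Y113.G.Ev

/-!
# E-functions: Siegel's lemma, the auxiliary polynomials
-/

set_option autoImplicit false

open PowerSeries Finset.HasAntidiagonal

namespace Pool.Agent.R352.E

open Pool.Agent.Y113

attribute [local instance] Matrix.seminormedAddCommGroup

/-- Siegel's lemma with `N (n + 1)` unknowns and `m₀` equations -/
lemma siegel_mat {N n m₀ e : ℕ} (A : Matrix (Fin m₀) (Fin N × Fin (n + 1)) ℤ) {B : ℝ} (hB : 1 ≤ B)
    (hA : ∀ l p, |((A l p : ℤ) : ℝ)| ≤ B) (hm : 0 < m₀) (hmn : m₀ < N * (n + 1))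
    (he : m₀ ≤ e * (N * (n + 1) - m₀)) :
    ∃ x : Fin N × Fin (n + 1) → ℤ, x ≠ 0 ∧ A.mulVec x = 0 ∧
      ∀ p, |((x p : ℤ) : ℝ)| ≤ ((N * (n + 1) : ℕ) * B) ^ e := by
  have hcard : Fintype.card (Fin m₀) < Fintype.card (Fin N × Fin (n + 1)) := by simpa using hmn
  obtain ⟨x, hx0, hAx, hxn⟩ := Int.Matrix.exists_ne_zero_int_vec_norm_le A hcard (by simpa using hm)
  refine ⟨x, hx0, hAx, ?_⟩
  have hAn : ‖A‖ ≤ B := by
    rw [Matrix.norm_le_iff (by linarith)]
    intro l p
    rw [Int.norm_eq_abs]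
    exact hA l p
  intro p
  have h1 : |((x p : ℤ) : ℝ)| ≤ ‖x‖ := by
    rw [← Int.norm_eq_abs]
    exact norm_le_pi_norm x p
  refine h1.trans (hxn.trans ?_)
  have hbase : (1 : ℝ) ≤ ((N * (n + 1) : ℕ) : ℝ) * B := by
    have h2 : (1 : ℝ) ≤ ((N * (n + 1) : ℕ) : ℝ) := by
      exact_mod_cast (show 1 ≤ N * (n + 1) by omega)
    nlinarith
  have hmax : max 1 ‖A‖ ≤ B := max_le hB hAn
  have hcard2 : (Fintype.card (Fin N × Fin (n + 1)) : ℝ) = ((N * (n + 1) : ℕ) : ℝ) := by simp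
  have hcard3 : (Fintype.card (Fin m₀) : ℝ) = m₀ := by simp
  rw [hcard2, hcard3]
  have h4 : (0 : ℝ) < ((N * (n + 1) : ℕ) : ℝ) - m₀ := by
    have : (m₀ : ℝ) < ((N * (n + 1) : ℕ) : ℝ) := by exact_mod_cast hmn
    linarith
  have hexp : (m₀ : ℝ) / (((N * (n + 1) : ℕ) : ℝ) - m₀) ≤ (e : ℝ) := by
    rw [div_le_iff₀ h4]
    have h5 : ((N * (n + 1) - m₀ : ℕ) : ℝ) = ((N * (n + 1) : ℕ) : ℝ) - m₀ := by
      rw [Nat.cast_sub hmn.le]
    rw [← h5]
    exact_mod_cast he
  have hnn : (0 : ℝ) ≤ ((N * (n + 1) : ℕ) : ℝ) * max 1 ‖A‖ := by positivity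
  calc (((N * (n + 1) : ℕ) : ℝ) * max 1 ‖A‖) ^ ((m₀ : ℝ) / (((N * (n + 1) : ℕ) : ℝ) - m₀))
      ≤ (((N * (n + 1) : ℕ) : ℝ) * B) ^ ((m₀ : ℝ) / (((N * (n + 1) : ℕ) : ℝ) - m₀)) := by
        apply Real.rpow_le_rpow hnn
        · exact mul_le_mul_of_nonneg_left hmax (by positivity)
        · exact div_nonneg (by positivity) h4.le
    _ ≤ (((N * (n + 1) : ℕ) : ℝ) * B) ^ (e : ℝ) := Real.rpow_le_rpow_of_exponent_le hbase hexp
    _ = _ := by rw [Real.rpow_natCast]

/-- the numbers `m! a_m` of a power series `∑ a_m X^m` -/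
noncomputable def cf (m : ℕ) (f : ℚ⟦X⟧) : ℚ := (m.factorial : ℚ) * coeff m f

lemma cf_mul (m : ℕ) (f g : ℚ⟦X⟧) :
    cf m (f * g) = ∑ p ∈ antidiagonal m, (m.choose p.1 : ℚ) * (cf p.1 f * cf p.2 g) := by
  unfold cf
  rw [coeff_mul, Finset.mul_sum]
  refine Finset.sum_congr rfl fun p hp => ?_
  rw [Finset.HasAntidiagonal.mem_antidiagonal] at hp
  have h1 : (m.factorial : ℚ) = (m.choose p.1 : ℚ) * p.1.factorial * p.2.factorial := by
    have := Nat.choose_mul_factorial_mul_factorial (show p.1 ≤ m by omega)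
    rw [show m - p.1 = p.2 by omega] at this
    exact_mod_cast this.symm
  rw [h1]; ring

/-- the auxiliary polynomials -/
lemma siegel_E {N : ℕ} {C : ℝ} (hC : 1 ≤ C) {y : Fin N → ℚ⟦X⟧}
    (size : ∀ i m, |((cf m (y i) : ℚ) : ℝ)| ≤ C ^ (m + 1))
    (den : ∀ m, ∃ d : ℕ, 0 < d ∧ (d : ℝ) ≤ C ^ (m + 1) ∧ ∀ i, ∀ j ≤ m, ∃ a : ℤ, (d : ℚ) * cf j (y i) = a)
    (n m₀ e : ℕ) (hm : 0 < m₀) (hmn : m₀ < N * (n + 1)) (he : m₀ ≤ e * (N * (n + 1) - m₀)) :
    ∃ P : Fin N → Polynomial ℤ, P ≠ 0 ∧ (∀ i, (P i).natDegree ≤ n) ∧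
      (∀ i l, |(((P i).coeff l : ℤ) : ℝ)| ≤ n.factorial * ((N * (n + 1) : ℕ) * (2 * C) ^ (2 * m₀ + 1)) ^ e) ∧
      (∀ l < m₀, coeff l (∑ i, ps (P i) * y i) = 0) ∧
      ∀ l, |((cf l (∑ i, ps (P i) * y i) : ℚ) : ℝ)| ≤
        n.factorial * (N * ((N * (n + 1) : ℕ) * (2 * C) ^ (2 * m₀ + 1)) ^ e * C * (2 * C) ^ l) := by
  obtain ⟨d, hd0, hdC, hd⟩ := den m₀
  choose! a ha using hd
  let A : Matrix (Fin m₀) (Fin N × Fin (n + 1)) ℤ := Matrix.of fun l p =>
    if (p.2 : ℕ) ≤ l then ((l : ℕ).choose p.2 : ℤ) * a p.1 (l - p.2) else 0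
  have hC2 : (1 : ℝ) ≤ 2 * C := by linarith
  have hB1 : (1 : ℝ) ≤ (2 * C) ^ (2 * m₀ + 1) := one_le_pow₀ hC2
  have hAb : ∀ l p, |((A l p : ℤ) : ℝ)| ≤ (2 * C) ^ (2 * m₀ + 1) := by
    intro l p
    simp only [A, Matrix.of_apply]
    split_ifs with h
    · have h1 : ((a p.1 (l - p.2) : ℤ) : ℚ) = (d : ℚ) * cf ((l : ℕ) - p.2) (y p.1) :=
        (ha p.1 _ (by have := l.2; omega)).symm
      have h3 : ((a p.1 (l - p.2) : ℤ) : ℝ) = (d : ℝ) * ((cf ((l : ℕ) - p.2) (y p.1) : ℚ) : ℝ) := by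
        exact_mod_cast congrArg (fun q : ℚ => (q : ℝ)) h1
      push_cast
      rw [h3, abs_mul, abs_mul, Nat.abs_cast, Nat.abs_cast]
      have h4 : (((l : ℕ).choose p.2 : ℕ) : ℝ) ≤ 2 ^ m₀ := by
        have h5 : (l : ℕ).choose p.2 ≤ 2 ^ (l : ℕ) := Nat.choose_le_two_pow _ _
        have h6 : (2 : ℕ) ^ (l : ℕ) ≤ 2 ^ m₀ := Nat.pow_le_pow_right (by norm_num) l.2.le
        exact_mod_cast h5.trans h6
      calc (((l : ℕ).choose p.2 : ℕ) : ℝ) * ((d : ℝ) * |((cf ((l : ℕ) - p.2) (y p.1) : ℚ) : ℝ)|)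
          ≤ 2 ^ m₀ * (C ^ (m₀ + 1) * C ^ ((l : ℕ) - p.2 + 1)) :=
            mul_le_mul h4 (mul_le_mul hdC (size _ _) (abs_nonneg _) (by positivity)) (by positivity) (by positivity)
        _ ≤ 2 ^ m₀ * (C ^ (m₀ + 1) * C ^ m₀) := by
            apply mul_le_mul_of_nonneg_left _ (by positivity)
            apply mul_le_mul_of_nonneg_left _ (by positivity)
            exact pow_le_pow_right₀ hC (by have := l.2; omega)
        _ = 2 ^ m₀ * C ^ (2 * m₀ + 1) := by rw [← pow_add]; congr 2; ring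
        _ ≤ 2 ^ (2 * m₀ + 1) * C ^ (2 * m₀ + 1) := by
            apply mul_le_mul_of_nonneg_right _ (by positivity)
            exact pow_le_pow_right₀ (by norm_num) (by omega)
        _ = (2 * C) ^ (2 * m₀ + 1) := by rw [mul_pow]
    · simp only [Int.cast_zero, abs_zero]; positivity
  obtain ⟨x, hx0, hAx, hxb⟩ := siegel_mat A hB1 hAb hm hmn he
  set A₀ : ℝ := ((N * (n + 1) : ℕ) * (2 * C) ^ (2 * m₀ + 1)) ^ e with hA₀
  have hA₀0 : 0 ≤ A₀ := by positivity
  -- the extended unknowns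
  let xx : Fin N → ℕ → ℤ := fun i j => if h : j < n + 1 then x (i, ⟨j, h⟩) else 0
  have hxx : ∀ i j, |((xx i j : ℤ) : ℝ)| ≤ A₀ := by
    intro i j
    simp only [xx]
    split_ifs with h
    · exact hxb _
    · simp only [Int.cast_zero, abs_zero]; exact hA₀0
  let P : Fin N → Polynomial ℤ := fun i =>
    ∑ j ∈ Finset.range (n + 1), Polynomial.monomial j ((n.descFactorial (n - j) : ℤ) * xx i j)
  have hPc : ∀ i (l : ℕ), (P i).coeff l = (if l < n + 1 then (n.descFactorial (n - l) : ℤ) * xx i l else 0) := by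
    intro i l
    simp only [P, Polynomial.finsetSum_coeff, Polynomial.coeff_monomial]
    split_ifs with h
    · rw [Finset.sum_eq_single l]
      · simp
      · intro b _ hb
        rw [if_neg hb]
      · intro h2
        exact absurd (Finset.mem_range.2 h) h2
    · refine Finset.sum_eq_zero fun b hb => ?_
      rw [Finset.mem_range] at hb
      rw [if_neg (by omega)]
  have hfac : ∀ l, l < n + 1 → (l.factorial : ℤ) * (n.descFactorial (n - l) : ℤ) = n.factorial := by
    intro l hl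
    have := Nat.factorial_mul_descFactorial (show n - l ≤ n by omega)
    rw [show n - (n - l) = l by omega] at this
    exact_mod_cast this
  have hPcf : ∀ i (l : ℕ), cf l (ps (P i)) = (n.factorial : ℚ) * (xx i l : ℚ) := by
    intro i l
    have h1 : coeff l (ps (P i)) = (((P i).coeff l : ℤ) : ℚ) := by
      simp [ps, Polynomial.coeff_coe]
    rw [cf, h1, hPc]
    split_ifs with h
    · have h2 := hfac l h
      have h3 : (l.factorial : ℚ) * (n.descFactorial (n - l) : ℚ) = n.factorial := by exact_mod_cast h2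
      push_cast
      rw [← mul_assoc, h3]
    · have h2 : xx i l = 0 := by simp only [xx]; rw [dif_neg h]
      rw [h2]; simp
  have hR : ∀ l, cf l (∑ i, ps (P i) * y i) = (n.factorial : ℚ) *
      ∑ i, ∑ p ∈ antidiagonal l, (l.choose p.1 : ℚ) * ((xx i p.1 : ℚ) * cf p.2 (y i)) := by
    intro l
    have h1 : cf l (∑ i, ps (P i) * y i) = ∑ i, cf l (ps (P i) * y i) := by
      simp only [cf, map_sum, Finset.mul_sum]
    rw [h1, Finset.mul_sum]
    refine Finset.sum_congr rfl fun i _ => ?_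
    rw [cf_mul, Finset.mul_sum]
    refine Finset.sum_congr rfl fun p _ => ?_
    rw [hPcf]; ring
  refine ⟨P, ?_, ?_, ?_, ?_, ?_⟩
  · intro h0
    apply hx0
    funext ⟨i, j⟩
    have h1 := hPc i j
    rw [h0] at h1
    simp only [Pi.zero_apply, Polynomial.coeff_zero, j.2, if_true] at h1
    have h2 : (n.descFactorial (n - (j : ℕ)) : ℤ) ≠ 0 := by
      have h3 := hfac j j.2
      intro h4
      rw [h4, mul_zero] at h3
      exact absurd h3.symm (by exact_mod_cast n.factorial_ne_zero)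
    have h3 : xx i j = 0 := by
      rcases mul_eq_zero.1 h1.symm with h4 | h4
      · exact absurd h4 h2
      · exact h4
    simp only [xx, j.2, dif_pos] at h3
    exact h3
  · intro i
    refine Polynomial.natDegree_sum_le_of_forall_le _ _ fun j hj => ?_
    rw [Finset.mem_range] at hj
    exact (Polynomial.natDegree_monomial_le _).trans (by omega)
  · intro i l
    rw [hPc]
    split_ifs with h
    · push_cast
      rw [abs_mul, Nat.abs_cast]
      refine mul_le_mul ?_ (hxx i l) (abs_nonneg _) (by positivity)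
      have h2 := hfac l h
      have h3 : n.descFactorial (n - l) ≤ n.factorial := by
        have h4 : l.factorial * n.descFactorial (n - l) = n.factorial := by exact_mod_cast h2
        rw [← h4]
        exact Nat.le_mul_of_pos_left _ l.factorial_pos
      exact_mod_cast h3
    · simp only [Int.cast_zero, abs_zero]
      positivity
  · intro l hl
    have h1 := congrFun hAx ⟨l, hl⟩
    have h2 : (d : ℚ) * (∑ i, ∑ p ∈ antidiagonal l, (l.choose p.1 : ℚ) * ((xx i p.1 : ℚ) * cf p.2 (y i))) =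
        (((A.mulVec x) ⟨l, hl⟩ : ℤ) : ℚ) := by
      have h3 : (A.mulVec x) ⟨l, hl⟩ = ∑ p : Fin N × Fin (n + 1), A ⟨l, hl⟩ p * x p := rfl
      rw [h3, Finset.mul_sum, Fintype.sum_prod_type]
      push_cast
      refine Finset.sum_congr rfl fun i _ => ?_
      rw [Finset.mul_sum]
      have h4 : ∀ p ∈ antidiagonal l, (d : ℚ) * ((l.choose p.1 : ℚ) * ((xx i p.1 : ℚ) * cf p.2 (y i))) =
          (xx i p.1 : ℚ) * ((l.choose p.1 : ℚ) * (a i (l - p.1) : ℚ)) := by
        intro p hp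
        rw [Finset.HasAntidiagonal.mem_antidiagonal] at hp
        have h5 : p.2 = l - p.1 := by omega
        rw [← ha i (l - p.1) (by omega), ← h5]
        ring
      rw [Finset.sum_congr rfl h4]
      rw [Finset.Nat.sum_antidiagonal_eq_sum_range_succ_mk]
      have h6 : ∀ j : Fin (n + 1), ((A ⟨l, hl⟩ (i, j) : ℤ) : ℚ) * ((x (i, j) : ℤ) : ℚ) =
          (fun j : ℕ => if j ≤ l then (xx i j : ℚ) * ((l.choose j : ℚ) * (a i (l - j) : ℚ)) else 0) j := by
        intro j
        simp only [A, Matrix.of_apply, xx, j.2, dif_pos]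
        split_ifs with h
        · push_cast; ring
        · simp
      rw [Finset.sum_congr rfl fun j _ => h6 j, Fin.sum_univ_eq_sum_range
        (fun j : ℕ => if j ≤ l then (xx i j : ℚ) * ((l.choose j : ℚ) * (a i (l - j) : ℚ)) else 0) (n + 1)]
      have h7 : ∀ j : ℕ, n + 1 ≤ j → xx i j = 0 := by
        intro j hj
        simp only [xx]
        rw [dif_neg (by omega)]
      rcases le_total (n + 1) (l + 1) with h8 | h8
      · rw [← Finset.sum_subset (Finset.range_mono h8)]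
        · refine Finset.sum_congr rfl fun j hj => ?_
          rw [Finset.mem_range] at hj
          rw [if_pos (by omega)]
        · intro j _ hj
          rw [Finset.mem_range, not_lt] at hj
          rw [h7 j hj]; simp
      · symm
        rw [← Finset.sum_subset (Finset.range_mono h8)]
        · refine Finset.sum_congr rfl fun j hj => ?_
          rw [Finset.mem_range] at hj
          rw [if_pos (by omega)]
        · intro j _ hj
          rw [Finset.mem_range, not_lt] at hj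
          rw [if_neg (by omega)]
    rw [h1] at h2
    simp only [Pi.zero_apply, Int.cast_zero] at h2
    have h3 : (∑ i, ∑ p ∈ antidiagonal l, (l.choose p.1 : ℚ) * ((xx i p.1 : ℚ) * cf p.2 (y i))) = 0 := by
      rcases mul_eq_zero.1 h2 with h3 | h3
      · exact absurd (by exact_mod_cast h3) hd0.ne'
      · exact h3
    have h4 := hR l
    rw [h3, mul_zero, cf] at h4
    rcases mul_eq_zero.1 h4 with h5 | h5
    · exact absurd h5 (by exact_mod_cast l.factorial_ne_zero)
    · exact h5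
  · intro l
    rw [hR]
    push_cast
    rw [abs_mul, Nat.abs_cast]
    refine mul_le_mul_of_nonneg_left ?_ (by positivity)
    refine (Finset.abs_sum_le_sum_abs _ _).trans ?_
    have h1 : ∀ i : Fin N, |∑ p ∈ antidiagonal l, (l.choose p.1 : ℝ) * ((xx i p.1 : ℝ) * ((cf p.2 (y i) : ℚ) : ℝ))| ≤
        A₀ * C * (2 * C) ^ l := by
      intro i
      refine (Finset.abs_sum_le_sum_abs _ _).trans ?_
      have h2 : ∀ p ∈ antidiagonal l, |(l.choose p.1 : ℝ) * ((xx i p.1 : ℝ) * ((cf p.2 (y i) : ℚ) : ℝ))| ≤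
          (l.choose p.1 : ℝ) * (A₀ * C ^ (l + 1)) := by
        intro p hp
        rw [Finset.HasAntidiagonal.mem_antidiagonal] at hp
        rw [abs_mul, abs_mul, Nat.abs_cast]
        refine mul_le_mul_of_nonneg_left ?_ (by positivity)
        refine mul_le_mul (hxx i _) ?_ (abs_nonneg _) hA₀0
        exact (size i _).trans (pow_le_pow_right₀ hC (by omega))
      refine (Finset.sum_le_sum h2).trans ?_
      rw [← Finset.sum_mul]
      have h3 : ∑ p ∈ antidiagonal l, (l.choose p.1 : ℝ) = 2 ^ l := by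
        rw [Finset.Nat.sum_antidiagonal_eq_sum_range_succ_mk]
        exact_mod_cast Nat.sum_range_choose l
      rw [h3, mul_pow, pow_succ]
      apply le_of_eq
      ring
    refine (Finset.sum_le_sum fun i _ => h1 i).trans (le_of_eq ?_)
    simp
    ring

end Pool.Agent.R352.E
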