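import Pool.Agent.H18.L.W45.WP.Dig

/-!
# The integrals of `(log t)^n exp (-t)` over `(0, ∞)`
-/

set_option autoImplicit false

open Complex Filter Topology Set MeasureTheory Asymptotics

namespace Pool.Agent.R352.E

/-- `(log t)^n exp(-t)` -/
noncomputable def fr (n : ℕ) (t : ℝ) : ℝ := Real.log t ^ n * Real.exp (-t)

/-- its complex version -/
noncomputable def fl (n : ℕ) (t : ℝ) : ℂ := ((fr n t : ℝ) : ℂ)

lemma fr_cont (n : ℕ) : ContinuousOn (fr n) (Ioi 0) := by
  apply ContinuousOn.mul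
  · apply ContinuousOn.pow
    exact Real.continuousOn_log.mono fun x hx => (ne_of_gt hx : x ≠ 0)
  · exact (Real.continuous_exp.comp continuous_neg).continuousOn

lemma fl_loc (n : ℕ) : LocallyIntegrableOn (fl n) (Ioi 0) := by
  refine ContinuousOn.locallyIntegrableOn ?_ measurableSet_Ioi
  exact continuous_ofReal.comp_continuousOn (fr_cont n)

lemma fl_top (n : ℕ) (a : ℝ) : fl n =O[atTop] (fun t : ℝ => t ^ (-a)) := by
  rw [← isBigO_norm_left]
  have h1 : (fun t : ℝ => Real.log t ^ n) =O[atTop] (fun t : ℝ => t) := (Real.isLittleO_pow_log_id_atTop).isBigO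
  have h2 : (fun t : ℝ => Real.exp (-1 * t)) =O[atTop] (fun t : ℝ => t ^ (-a - 1)) :=
    (isLittleO_exp_neg_mul_rpow_atTop one_pos _).isBigO
  have h3 := h1.mul h2
  refine IsBigO.congr' (f₁ := fun t => ‖Real.log t ^ n * Real.exp (-1 * t)‖)
    (g₁ := fun t : ℝ => t * t ^ (-a - 1)) h3.norm_left ?_ ?_
  · refine Eventually.of_forall fun t => ?_
    simp only [fl, fr, Complex.norm_real, neg_one_mul]
  · filter_upwards [eventually_gt_atTop 0] with t ht
    rw [Real.rpow_sub ht, Real.rpow_one]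
    field_simp

lemma fl_zero (n : ℕ) {b : ℝ} (hb : 0 < b) : fl n =O[𝓝[>] 0] (fun t : ℝ => t ^ (-b)) := by
  rw [← isBigO_norm_left]
  have h1 : (fun t : ℝ => |Real.log t| ^ (n : ℝ)) =O[𝓝[>] 0] (fun t : ℝ => t ^ (-b)) :=
    (isLittleO_abs_log_rpow_rpow_nhdsGT_zero (n : ℝ) (by linarith)).isBigO
  refine IsBigO.trans (IsBigO.of_bound 1 ?_) h1
  filter_upwards [self_mem_nhdsWithin] with t ht
  simp only [fl, fr, Complex.norm_real, norm_mul, norm_pow, Real.norm_eq_abs, one_mul, Real.rpow_natCast, abs_abs,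
    Real.abs_exp]
  refine mul_le_of_le_one_right (by positivity) ?_
  rw [Real.exp_le_one_iff]
  have : (0 : ℝ) < t := ht
  linarith

lemma mellin_fl (n : ℕ) {s : ℂ} (hs : 0 < s.re) :
    MellinConvergent (fl (n + 1)) s ∧ HasDerivAt (mellin (fl n)) (mellin (fl (n + 1)) s) s := by
  have h := mellin_hasDerivAt_of_isBigO_rpow (fl_loc n) (fl_top n (s.re + 1)) (by linarith) (fl_zero n (half_pos hs))
    (by linarith)
  have h1 : (fun t : ℝ => Real.log t • fl n t) = fl (n + 1) := by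
    funext t
    simp only [fl, fr, real_smul]
    push_cast
    ring
  rw [h1] at h
  exact h

lemma mellin_fl_zero {s : ℂ} (hs : 0 < s.re) : mellin (fl 0) s = Gamma s := by
  rw [Gamma_eq_integral hs, GammaIntegral_eq_mellin]
  congr 1
  funext t
  simp [fl, fr]

/-- the digamma function -/
noncomputable def psi (s : ℂ) : ℂ := -(Real.eulerMascheroniConstant : ℂ) - 1 / s + ∑' n, Pool.Agent.W45.WP.dg n s
/-- its derivative -/
noncomputable def psi1 (s : ℂ) : ℂ := 1 / s ^ 2 + ∑' n : ℕ, 1 / (s + ((n : ℂ) + 1)) ^ 2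
/-- its second derivative -/
noncomputable def psi2 (s : ℂ) : ℂ := -2 / s ^ 3 + ∑' n : ℕ, -2 / (s + ((n : ℂ) + 1)) ^ 3

lemma ne_add {s : ℂ} (hs : 0 < s.re) (n : ℕ) : s + ((n : ℂ) + 1) ≠ 0 := by
  intro h
  have := congrArg re h
  simp only [add_re, natCast_re, one_re, zero_re] at this
  have hn : (0 : ℝ) ≤ n := Nat.cast_nonneg n
  linarith

lemma norm_add_ge {s : ℂ} (hs : 0 < s.re) (n : ℕ) : (n : ℝ) + 1 ≤ ‖s + ((n : ℂ) + 1)‖ := by
  refine le_trans ?_ (re_le_norm _)
  simp only [add_re, natCast_re, one_re]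
  linarith

lemma isOpen_half : IsOpen {s : ℂ | 0 < s.re} := continuous_re.isOpen_preimage _ isOpen_Ioi

lemma psi_deriv {s : ℂ} (hs : 0 < s.re) : HasDerivAt psi (psi1 s) s := by
  have hs0 : s ≠ 0 := by rintro rfl; simp at hs
  have h1 : HasDerivAt (fun z : ℂ => ∑' n, Pool.Agent.W45.WP.dg n z) (∑' n : ℕ, 1 / (s + ((n : ℂ) + 1)) ^ 2) s := by
    refine hasDerivAt_tsum_of_isPreconnected (u := fun n : ℕ => 1 / ((n : ℝ) + 1) ^ 2) H370.DG.summable_inv_sq
      isOpen_half (convex_halfSpace_re_gt 0).isPreconnected (g := fun n z => Pool.Agent.W45.WP.dg n z)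
      (g' := fun n z => 1 / (z + ((n : ℂ) + 1)) ^ 2) ?_ ?_ (y₀ := s) hs (Pool.Agent.W45.WP.summable_dg hs) hs
    · intro n y hy
      have hy0 := ne_add hy n
      have h2 : HasDerivAt (fun z : ℂ => z + ((n : ℂ) + 1)) 1 y := (hasDerivAt_id y).add_const _
      have h3 := (h2.inv hy0).const_sub (1 / ((n : ℂ) + 1))
      refine (h3.congr_deriv ?_).congr_of_eventuallyEq (Eventually.of_forall fun z => ?_)
      · rw [neg_div, neg_neg]
      · simp [Pool.Agent.W45.WP.dg]
    · intro n y hy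
      rw [norm_div, norm_one, norm_pow]
      have := norm_add_ge hy n
      exact one_div_le_one_div_of_le (by positivity) (pow_le_pow_left₀ (by positivity) this 2)
  have h2 : HasDerivAt (fun z : ℂ => -(Real.eulerMascheroniConstant : ℂ) - 1 / z) (1 / s ^ 2) s := by
    have h3 := (hasDerivAt_inv hs0).const_sub (-(Real.eulerMascheroniConstant : ℂ))
    refine (h3.congr_deriv ?_).congr_of_eventuallyEq (Eventually.of_forall fun z => ?_)
    · rw [one_div]; ring
    · simp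
  exact h2.add h1

lemma psi1_deriv {s : ℂ} (hs : 0 < s.re) : HasDerivAt psi1 (psi2 s) s := by
  have hs0 : s ≠ 0 := by rintro rfl; simp at hs
  have hpow : ∀ c : ℂ, ∀ y : ℂ, y + c ≠ 0 → HasDerivAt (fun z : ℂ => 1 / (z + c) ^ 2) (-2 / (y + c) ^ 3) y := by
    intro c y hy
    have h2 : HasDerivAt (fun z : ℂ => z + c) 1 y := (hasDerivAt_id y).add_const _
    have h3 := (h2.pow 2).inv (pow_ne_zero 2 hy)
    refine (h3.congr_deriv ?_).congr_of_eventuallyEq (Eventually.of_forall fun z => ?_)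
    · field_simp
      norm_num
      ring
    · simp
  have h1 : HasDerivAt (fun z : ℂ => ∑' n : ℕ, 1 / (z + ((n : ℂ) + 1)) ^ 2) (∑' n : ℕ, -2 / (s + ((n : ℂ) + 1)) ^ 3) s := by
    refine hasDerivAt_tsum_of_isPreconnected (u := fun n : ℕ => 2 * (1 / ((n : ℝ) + 1) ^ 2))
      (H370.DG.summable_inv_sq.mul_left 2)
      isOpen_half (convex_halfSpace_re_gt 0).isPreconnected (g := fun (n : ℕ) (z : ℂ) => 1 / (z + ((n : ℂ) + 1)) ^ 2)
      (g' := fun (n : ℕ) (z : ℂ) => -2 / (z + ((n : ℂ) + 1)) ^ 3) ?_ ?_ (y₀ := s) hs ?_ hs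
    · intro n y hy
      exact hpow _ y (ne_add hy n)
    · intro n y hy
      rw [norm_div, norm_neg, norm_pow]
      have h4 := norm_add_ge hy n
      have h5 : ((n : ℝ) + 1) ^ 2 ≤ ‖y + ((n : ℂ) + 1)‖ ^ 3 := by
        calc ((n : ℝ) + 1) ^ 2 ≤ ((n : ℝ) + 1) ^ 3 := pow_le_pow_right₀ (by linarith [show (0 : ℝ) ≤ n by positivity]) (by norm_num)
          _ ≤ _ := pow_le_pow_left₀ (by positivity) h4 3
      have h6 : ‖(2 : ℂ)‖ = 2 := by simp
      rw [h6, mul_one_div]
      exact div_le_div_of_nonneg_left (by norm_num) (by positivity) h5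
    · refine Summable.of_norm_bounded H370.DG.summable_inv_sq fun n => ?_
      rw [norm_div, norm_one, norm_pow]
      exact one_div_le_one_div_of_le (by positivity) (pow_le_pow_left₀ (by positivity) (norm_add_ge hs n) 2)
  have h2 : HasDerivAt (fun z : ℂ => 1 / z ^ 2) (-2 / s ^ 3) s := by
    have := hpow 0 s (by simpa using hs0)
    simpa using this
  exact h2.add h1

lemma Gamma_deriv {s : ℂ} (hs : 0 < s.re) : HasDerivAt Gamma (Gamma s * psi s) s := by
  have hd : DifferentiableAt ℂ Gamma s := differentiableAt_Gamma s fun m h => by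
    rw [h] at hs
    simp only [neg_re, natCast_re] at hs
    have : (0 : ℝ) ≤ m := Nat.cast_nonneg m
    linarith
  have h1 := Pool.Agent.W45.WP.logDeriv_Gamma_eq hs
  rw [logDeriv_apply, div_eq_iff (Gamma_ne_zero_of_re_pos hs)] at h1
  have h2 : deriv Gamma s = Gamma s * psi s := by rw [h1, psi, mul_comm]
  rw [← h2]
  exact hd.hasDerivAt

/-- the first three derivatives of the gamma function -/
noncomputable def G1 (s : ℂ) : ℂ := Gamma s * psi s
noncomputable def G2 (s : ℂ) : ℂ := Gamma s * (psi s ^ 2 + psi1 s)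
noncomputable def G3 (s : ℂ) : ℂ := Gamma s * (psi s ^ 3 + 3 * psi s * psi1 s + psi2 s)

lemma G1_deriv {s : ℂ} (hs : 0 < s.re) : HasDerivAt G1 (G2 s) s := by
  have h := (Gamma_deriv hs).mul (psi_deriv hs)
  refine h.congr_deriv ?_
  rw [G2]; ring

lemma G2_deriv {s : ℂ} (hs : 0 < s.re) : HasDerivAt G2 (G3 s) s := by
  have h := (Gamma_deriv hs).mul (((psi_deriv hs).pow 2).add (psi1_deriv hs))
  refine h.congr_deriv ?_
  rw [G3]
  simp only [Nat.cast_ofNat, Nat.add_one_sub_one, pow_one, Pi.add_apply, Pi.pow_apply]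
  ring

lemma mellin_eq (n : ℕ) (F F' : ℂ → ℂ) (hF : ∀ s : ℂ, 0 < s.re → mellin (fl n) s = F s)
    (hF' : ∀ s : ℂ, 0 < s.re → HasDerivAt F (F' s) s) : ∀ s : ℂ, 0 < s.re → mellin (fl (n + 1)) s = F' s := by
  intro s hs
  have h1 := (mellin_fl n hs).2
  have h2 : HasDerivAt (mellin (fl n)) (F' s) s := by
    refine (hF' s hs).congr_of_eventuallyEq ?_
    filter_upwards [isOpen_half.mem_nhds hs] with z hz
    exact hF z hz
  exact h1.unique h2

lemma mellin1 : ∀ s : ℂ, 0 < s.re → mellin (fl 1) s = G1 s :=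
  mellin_eq 0 Gamma G1 (fun _ hs => mellin_fl_zero hs) (fun _ hs => Gamma_deriv hs)
lemma mellin2 : ∀ s : ℂ, 0 < s.re → mellin (fl 2) s = G2 s :=
  mellin_eq 1 G1 G2 mellin1 (fun _ hs => G1_deriv hs)
lemma mellin3 : ∀ s : ℂ, 0 < s.re → mellin (fl 3) s = G3 s :=
  mellin_eq 2 G2 G3 mellin2 (fun _ hs => G2_deriv hs)

lemma one_re_pos : (0 : ℝ) < (1 : ℂ).re := by simp

lemma psi_one : psi 1 = -(Real.eulerMascheroniConstant : ℂ) := by
  have h1 := (Gamma_deriv one_re_pos).unique hasDerivAt_Gamma_one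
  rw [Gamma_one, one_mul] at h1
  exact h1

/-- `ζ(3)` -/
noncomputable def zeta3 : ℝ := ∑' n : ℕ, 1 / ((n : ℝ) + 1) ^ 3

lemma psi1_one : psi1 1 = ((Real.pi ^ 2 / 6 : ℝ) : ℂ) := by
  have h1 : HasSum (fun n : ℕ => 1 / ((n : ℝ)) ^ 2) (Real.pi ^ 2 / 6) := hasSum_zeta_two
  have h2 : Summable (fun n : ℕ => 1 / ((n : ℝ)) ^ 2) := h1.summable
  have h3 : ∑' n : ℕ, 1 / ((n : ℝ)) ^ 2 = 1 + ∑' n : ℕ, 1 / ((1 : ℝ) + ((n : ℝ) + 1)) ^ 2 := by
    rw [← h2.sum_add_tsum_nat_add 2]
    simp only [Finset.sum_range_succ, Finset.sum_range_zero]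
    norm_num
    refine tsum_congr fun n => ?_
    ring_nf
  rw [psi1, ← h1.tsum_eq, h3]
  push_cast
  congr 1
  norm_num

lemma psi2_one : psi2 1 = ((-2 * zeta3 : ℝ) : ℂ) := by
  have h2 : Summable (fun n : ℕ => 1 / ((n : ℝ) + 1) ^ 3) := by
    have := (summable_nat_add_iff 1).2 (Real.summable_one_div_nat_pow.2 (show 1 < 3 by norm_num))
    refine this.congr fun n => ?_
    push_cast
    rfl
  have h3 : zeta3 = 1 + ∑' n : ℕ, 1 / ((1 : ℝ) + ((n : ℝ) + 1)) ^ 3 := by
    rw [zeta3, ← h2.sum_add_tsum_nat_add 1]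
    simp only [Finset.sum_range_succ, Finset.sum_range_zero]
    norm_num
    refine tsum_congr fun n => ?_
    ring_nf
  rw [psi2, h3]
  push_cast
  rw [mul_add, ← tsum_mul_left]
  congr 1
  · norm_num
  · refine tsum_congr fun n => ?_
    rw [mul_one_div]

lemma fr_integrable (n : ℕ) : IntegrableOn (fr n) (Ioi 0) := by
  have h : MellinConvergent (fl n) 1 := by
    rcases n with _ | n
    · have := (Complex.GammaIntegral_convergent (s := 1) (by simp))
      unfold MellinConvergent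
      refine this.congr_fun (fun t ht => ?_) measurableSet_Ioi
      simp only [fl, fr, pow_zero, one_mul, smul_eq_mul, sub_self, cpow_zero, mul_one]
    · exact (mellin_fl n one_re_pos).1
  unfold MellinConvergent at h
  have h2 : IntegrableOn (fun t : ℝ => fl n t) (Ioi 0) := by
    refine h.congr_fun (fun t ht => ?_) measurableSet_Ioi
    simp
  have h3 : IntegrableOn (fun t : ℝ => RCLike.re (fl n t)) (Ioi 0) := h2.re
  refine h3.congr_fun (fun t ht => ?_) measurableSet_Ioi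
  simp [fl]

lemma mellin_one (n : ℕ) : mellin (fl n) 1 = ((∫ t in Ioi (0 : ℝ), fr n t : ℝ) : ℂ) := by
  rw [mellin, ← integral_complex_ofReal]
  refine setIntegral_congr_fun measurableSet_Ioi fun t ht => ?_
  simp [fl]

/-- the moments -/
noncomputable def mo (n : ℕ) : ℝ := ∫ t in Ioi (0 : ℝ), fr n t

lemma mo0 : mo 0 = 1 := by
  have h := mellin_one 0
  rw [mellin_fl_zero one_re_pos, Gamma_one] at h
  exact_mod_cast h.symm

lemma mo1 : mo 1 = -Real.eulerMascheroniConstant := by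
  have h := mellin_one 1
  rw [mellin1 1 one_re_pos, G1, Gamma_one, psi_one, one_mul] at h
  have h2 : ((mo 1 : ℝ) : ℂ) = ((-Real.eulerMascheroniConstant : ℝ) : ℂ) := by
    rw [mo, ← h]; push_cast; rfl
  exact_mod_cast h2

lemma mo2 : mo 2 = Real.eulerMascheroniConstant ^ 2 + Real.pi ^ 2 / 6 := by
  have h := mellin_one 2
  rw [mellin2 1 one_re_pos, G2, Gamma_one, psi_one, psi1_one, one_mul] at h
  have h2 : ((mo 2 : ℝ) : ℂ) = ((Real.eulerMascheroniConstant ^ 2 + Real.pi ^ 2 / 6 : ℝ) : ℂ) := by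
    rw [mo, ← h]; push_cast; ring
  exact_mod_cast h2

lemma mo3 : mo 3 = -(Real.eulerMascheroniConstant ^ 3 + Real.eulerMascheroniConstant * Real.pi ^ 2 / 2 + 2 * zeta3) := by
  have h := mellin_one 3
  rw [mellin3 1 one_re_pos, G3, Gamma_one, psi_one, psi1_one, psi2_one, one_mul] at h
  have h2 : ((mo 3 : ℝ) : ℂ) = ((-(Real.eulerMascheroniConstant ^ 3 + Real.eulerMascheroniConstant * Real.pi ^ 2 / 2
      + 2 * zeta3) : ℝ) : ℂ) := by
    rw [mo, ← h]; push_cast; ring
  exact_mod_cast h2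

end Pool.Agent.R352.E
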