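import Pool.Agent.H18.L.Y113.G.Rank
import Pool.Agent.H18.L.Y141.GF.Shid

/-!
# E-functions: the rank of the derived vectors at a point
-/

set_option autoImplicit false

open PowerSeries Finset.HasAntidiagonal

namespace Pool.Agent.R352.E

open Pool.Agent.Y113

/-- the leading constant of the iterates of `U D` -/
lemma const_iter (U : ℚ⟦X⟧) (l : ℕ) : ∀ f : ℚ⟦X⟧, (∀ l' < l, coeff l' f = 0) →
    constantCoeff ((fun f => U * d⁄dX ℚ f)^[l] f) = (l.factorial : ℚ) * constantCoeff U ^ l * coeff l f := by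
  induction l with
  | zero => intro f _; simp
  | succ l ih =>
    intro f hf
    rw [Function.iterate_succ_apply]
    have h1 : ∀ l' < l, coeff l' (U * d⁄dX ℚ f) = 0 := by
      intro l' hl'
      rw [coeff_mul]
      refine Finset.sum_eq_zero fun p hp => ?_
      rw [Finset.HasAntidiagonal.mem_antidiagonal] at hp
      rw [coeff_derivative, hf _ (by omega)]
      ring
    rw [ih _ h1]
    have h2 : coeff l (U * d⁄dX ℚ f) = constantCoeff U * (((l : ℚ) + 1) * coeff (l + 1) f) := by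
      rw [coeff_mul, Finset.sum_eq_single (0, l)]
      · rw [coeff_derivative, PowerSeries.coeff_zero_eq_constantCoeff_apply]; ring
      · intro p hp hne
        rw [Finset.HasAntidiagonal.mem_antidiagonal] at hp
        have : p.2 < l := by
          by_contra hcon
          apply hne
          have h3 : p.2 = l := by omega
          have h4 : p.1 = 0 := by omega
          exact Prod.ext h4 h3
        rw [coeff_derivative, hf _ (by omega)]
        ring
      · intro h
        exact absurd (by rw [Finset.HasAntidiagonal.mem_antidiagonal]; simp) h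
    rw [h2, Nat.factorial_succ]
    push_cast
    ring

lemma coeff_zero_of_iter {U : ℚ⟦X⟧} (hU : constantCoeff U ≠ 0) (f : ℚ⟦X⟧) (K : ℕ)
    (h : ∀ k ≤ K, constantCoeff ((fun f => U * d⁄dX ℚ f)^[k] f) = 0) : ∀ l < K + 1, coeff l f = 0 := by
  intro l
  induction l using Nat.strong_induction_on with
  | _ l ih =>
    intro hl
    have h1 := const_iter U l f (fun l' hl' => ih l' hl' (by omega))
    rw [h l (by omega)] at h1
    have h2 : ((l.factorial : ℚ) * constantCoeff U ^ l) ≠ 0 :=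
      mul_ne_zero (by exact_mod_cast l.factorial_ne_zero) (pow_ne_zero _ hU)
    rcases mul_eq_zero.1 h1.symm with h3 | h3
    · exact absurd h3 h2
    · exact h3

theorem rank_nab {N : ℕ} {T : Polynomial ℚ} {B : Fin N → Fin N → Polynomial ℚ}
    {y : Fin N → ℚ⟦X⟧} (hy : ∀ i, (T : ℚ⟦X⟧) * d⁄dX ℚ (y i) = ∑ j, (B i j : ℚ⟦X⟧) * y j)
    (hLI : LinearIndependent (Polynomial ℚ) y) (i₀ : Fin N) (h1 : y i₀ = 1) (ξ : ℚ) (hξ0 : ξ ≠ 0) (hξ : T.eval ξ ≠ 0) :
    ∃ c₁ : ℕ, ∀ (n m K : ℕ) (P : Fin N → Polynomial ℚ), P ≠ 0 → (∀ i, (P i).natDegree ≤ n) →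
      (∀ l < m, coeff l (∑ i, (P i : ℚ⟦X⟧) * y i) = 0) → (N - 1) * n + c₁ < m → N * n + c₁ < m + K →
      ∀ v : Fin N → ℚ, (∀ k ≤ K, ∑ j, ((nab T B)^[k] P j).eval ξ * v j = 0) → v = 0 := by
  obtain ⟨c, hc⟩ := Pool.Agent.Y141.GF.t_shid ℚ N T B y ξ hξ hy hLI
  obtain ⟨b, hbT, hbB⟩ : ∃ b : ℕ, T.natDegree ≤ b ∧ ∀ i j, (B i j).natDegree ≤ b := by
    refine ⟨T.natDegree + ∑ i, ∑ j, (B i j).natDegree, by omega, fun i j => ?_⟩
    have h2 : (B i j).natDegree ≤ ∑ j, (B i j).natDegree :=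
      Finset.single_le_sum (f := fun j => (B i j).natDegree) (fun _ _ => Nat.zero_le _) (Finset.mem_univ j)
    have h3 : ∑ j, (B i j).natDegree ≤ ∑ i, ∑ j, (B i j).natDegree :=
      Finset.single_le_sum (f := fun i => ∑ j, (B i j).natDegree) (fun _ _ => Nat.zero_le _) (Finset.mem_univ i)
    omega
  refine ⟨c + N * N * b + 2 * N, ?_⟩
  intro n m K P hP0 hPn hm hm1 hm2 v hv
  by_contra hv0
  have hNpos : 0 < N := i₀.pos
  set Δ := (Matrix.of fun k j : Fin N => ((nab T B)^[(k : ℕ)] P) j).det with hΔ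
  have hΔ0 : Δ ≠ 0 := hc n m P hP0 hPn hm (by omega)
  have hdeg : Δ.natDegree ≤ N * n + N * N * b := natDegree_det_nab hbT hbB hPn
  -- order at 0
  have ho1 := det_order Polynomial.coeToPowerSeries.ringHom coe_deriv' (T := T) (B := B) (w := y)
    (by simpa [Polynomial.coeToPowerSeries.ringHom_apply] using hy) P m
    (by simpa [Polynomial.coeToPowerSeries.ringHom_apply] using hm) i₀ (by rw [h1]; simp)
  have hd1 : (Polynomial.X : Polynomial ℚ) ^ (m + 1 - N) ∣ Δ := by
    rw [Polynomial.X_pow_dvd_iff]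
    intro l hl
    have := ho1 l (by omega)
    rw [Polynomial.coeToPowerSeries.ringHom_apply, Polynomial.coeff_coe] at this
    exact this
  -- local solution
  have hT0 : (Polynomial.taylor ξ T).eval 0 ≠ 0 := by
    rw [Polynomial.taylor_eval]; simpa using hξ
  obtain ⟨w, hw0, hw⟩ := Pool.Agent.Y141.GF.t_loc ℚ N (Polynomial.taylor ξ T)
    (fun i j => Polynomial.taylor ξ (B i j)) v hT0
  have hw' : ∀ i, tay ξ T * d⁄dX ℚ (w i) = ∑ j, tay ξ (B i j) * w j := hw
  have hTc : constantCoeff (tay ξ T) ≠ 0 := by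
    rw [tay_apply, ← PowerSeries.coeff_zero_eq_constantCoeff_apply, Polynomial.coeff_coe, Polynomial.taylor_coeff_zero]
    exact hξ
  have hf : ∀ l < K + 1, coeff l (∑ i, tay ξ (P i) * w i) = 0 := by
    apply coeff_zero_of_iter hTc
    intro k hk
    rw [← nab_iter (tay ξ) (tay_deriv ξ) hw' P k, map_sum]
    have h4 : ∀ j, constantCoeff (tay ξ ((nab T B)^[k] P j) * w j) = ((nab T B)^[k] P j).eval ξ * v j := by
      intro j
      rw [map_mul, hw0, tay_apply, ← PowerSeries.coeff_zero_eq_constantCoeff_apply, Polynomial.coeff_coe,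
        Polynomial.taylor_coeff_zero]
    simp only [h4, hv k hk]
  obtain ⟨j₀, hj₀⟩ : ∃ j, v j ≠ 0 := by
    by_contra hcon
    push Not at hcon
    exact hv0 (funext hcon)
  have ho2 := det_order (tay ξ) (tay_deriv ξ) hw' P (K + 1) hf j₀ (by rw [hw0]; exact hj₀)
  have hd2 : (Polynomial.X - Polynomial.C ξ) ^ (K + 2 - N) ∣ Δ := by
    have h2 : (Polynomial.X : Polynomial ℚ) ^ (K + 2 - N) ∣ Polynomial.taylor ξ Δ := by
      rw [Polynomial.X_pow_dvd_iff]
      intro l hl
      have := ho2 l (by omega)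
      rw [tay_apply, Polynomial.coeff_coe] at this
      exact this
    obtain ⟨Q, hQ⟩ := h2
    refine ⟨Polynomial.taylor (-ξ) Q, ?_⟩
    have h3 := congrArg (Polynomial.taylor (-ξ)) hQ
    rw [Polynomial.taylor_taylor, neg_add_cancel, Polynomial.taylor_zero, Polynomial.taylor_mul] at h3
    rw [h3]
    congr 1
    rw [Polynomial.taylor_pow, Polynomial.taylor_X]
    simp [sub_eq_add_neg]
  have hcop : IsCoprime ((Polynomial.X : Polynomial ℚ) ^ (m + 1 - N)) ((Polynomial.X - Polynomial.C ξ) ^ (K + 2 - N)) := by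
    apply IsCoprime.pow
    have := Polynomial.isCoprime_X_sub_C_of_isUnit_sub (R := ℚ) (a := 0) (b := ξ)
      (isUnit_iff_ne_zero.2 (by simpa using hξ0))
    simpa using this
  have hdvd := hcop.mul_dvd hd1 hd2
  have hle := Polynomial.natDegree_le_of_dvd hdvd hΔ0
  rw [Polynomial.natDegree_mul (pow_ne_zero _ Polynomial.X_ne_zero) (pow_ne_zero _ (Polynomial.X_sub_C_ne_zero ξ)),
    Polynomial.natDegree_X_pow, Polynomial.natDegree_pow, Polynomial.natDegree_X_sub_C] at hle
  omega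

end Pool.Agent.R352.E
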