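import Pool.Agent.H18.L.R352.E.Tower

/-!
# Towers of iterated integrals: semi-invariants are monomials in `z`, `w`
-/

set_option autoImplicit false
set_option linter.unusedSectionVars false
set_option linter.unusedSimpArgs false
set_option linter.dupNamespace false

open MvPolynomial

namespace Pool.Agent.R352.E

section

variable {σ : Type} [Fintype σ] [LinearOrder σ] (t : Tw σ) (q : ℕ)

/-- the monomial `z^d w^j` -/
noncomputable def Tw.E (d j : ℕ) : MvPolynomial σ ℚ := X t.z ^ d * X t.w ^ j

/-- its eigenvalue -/
noncomputable def Tw.lam (d j : ℕ) : MvPolynomial σ ℚ := C ((q : ℚ) * d) - C (j : ℚ) * X t.z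

/-- the variables `< w` -/
def Tw.V : Finset σ := Finset.univ.filter (fun v => v < t.w)

lemma Tw.mem_V {v : σ} : v ∈ t.V ↔ v < t.w := by simp [Tw.V]

/-- linear forms in the variables `< w` with constant coefficients -/
noncomputable def Tw.lin (a : σ → ℚ) : MvPolynomial σ ℚ := ∑ v ∈ t.V, C (a v) * X v

lemma Tw.E_ne (d j : ℕ) : t.E d j ≠ 0 := mul_ne_zero (pow_ne_zero _ (X_ne_zero _)) (pow_ne_zero _ (X_ne_zero _))

lemma Tw.E_eq (d j : ℕ) : t.E d j = monomial (Finsupp.single t.z d + Finsupp.single t.w j) 1 := by
  rw [Tw.E, X_pow_eq_monomial, X_pow_eq_monomial, monomial_mul, one_mul]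

lemma Tw.D_E (d j : ℕ) : t.D q (t.E d j) = t.lam q d j * t.E d j := by
  rw [Tw.E, Tw.lam, Derivation.leibniz, Derivation.leibniz_pow, Derivation.leibniz_pow, t.D_z, t.D_w]
  simp only [smul_eq_mul, nsmul_eq_mul]
  have h1 : (C ((q : ℚ) * d) : MvPolynomial σ ℚ) = C (q : ℚ) * (d : MvPolynomial σ ℚ) := by simp
  have h2 : (C (j : ℚ) : MvPolynomial σ ℚ) = (j : MvPolynomial σ ℚ) := by simp
  rw [h1, h2]
  rcases d with _ | d <;> rcases j with _ | j <;> simp only [Nat.add_sub_cancel, pow_succ, pow_zero] <;> push_cast <;> ring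

lemma Tw.pderiv_E {u : σ} (hu : u < t.w) (d j : ℕ) : pderiv u (t.E d j) = 0 := by
  rw [Tw.E, pderiv_mul, pderiv_pow, pderiv_pow, pderiv_X_of_ne hu.ne', pderiv_X_of_ne (hu.trans t.hwz).ne']
  simp

lemma Tw.pderiv_lam {u : σ} (hu : u < t.w) (d j : ℕ) : pderiv u (t.lam q d j) = 0 := by
  rw [Tw.lam, map_sub, pderiv_C_mul, pderiv_X_of_ne (hu.trans t.hwz).ne', pderiv_C]
  simp

lemma pderiv_aeval {u v : σ} (h : v ≠ u) (r : Polynomial ℚ) :
    pderiv u (Polynomial.aeval (X v : MvPolynomial σ ℚ) r) = 0 := by
  rw [Derivation.map_aeval, pderiv_X_of_ne h, smul_zero]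

lemma Tw.pderiv_lin {u : σ} (hu : u ∈ t.V) (a : σ → ℚ) : pderiv u (t.lin a) = C (a u) := by
  rw [Tw.lin, map_sum, Finset.sum_eq_single u]
  · rw [pderiv_C_mul, pderiv_X_self, mul_one]
  · intro v _ hv
    rw [pderiv_C_mul, pderiv_X_of_ne hv, mul_zero]
  · intro h; exact absurd hu h

lemma Tw.pderiv_lin' {u : σ} (hu : u ∉ t.V) (a : σ → ℚ) : pderiv u (t.lin a) = 0 := by
  rw [Tw.lin, map_sum]
  refine Finset.sum_eq_zero fun v hv => ?_
  have : v ≠ u := by rintro rfl; exact hu hv
  rw [pderiv_C_mul, pderiv_X_of_ne this, mul_zero]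

lemma Tw.D_lin (a : σ → ℚ) : t.D q (t.lin a) = ∑ v ∈ t.V, C (a v) * (C (q : ℚ) * t.g v) := by
  rw [Tw.lin, map_sum]
  refine Finset.sum_congr rfl fun v hv => ?_
  simp only [C_mul', Derivation.map_smul, t.D_v q (t.mem_V.1 hv)]

/-- the two variable case -/
lemma Tw.base (hq : 1 ≤ q) {G : MvPolynomial σ ℚ} {d j : ℕ} {a : σ → ℚ} {r : Polynomial ℚ}
    (hV : ∀ v, v < t.w → pderiv v G = 0)
    (hG : t.D q G = t.lam q d j * G + t.E d j * (t.lin a + Polynomial.aeval (X t.w) r)) :
    ∃ c : ℚ, G = t.E d j * C c := by
  have hqQ : (q : ℚ) ≠ 0 := by exact_mod_cast (by omega : q ≠ 0)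
  -- the derivative
  have hD : t.D q G = C (q : ℚ) * (X t.z * pderiv t.z G) - X t.z * (X t.w * pderiv t.w G) := by
    rw [t.D_eq q G, ← Finset.add_sum_erase _ _ (Finset.mem_univ t.z),
      ← Finset.add_sum_erase _ _ (Finset.mem_erase.2 ⟨t.hwz.ne, Finset.mem_univ t.w⟩), Finset.sum_eq_zero]
    · rw [t.D_z, t.D_w]; ring
    · intro i hi
      rw [Finset.mem_erase, Finset.mem_erase] at hi
      rw [hV i (lt_of_le_of_ne (t.htop i hi.2.1) hi.1), mul_zero]
  -- no other variables
  have hs0 : ∀ s : σ →₀ ℕ, ∀ v, v < t.w → s v ≠ 0 → coeff s G = 0 := by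
    intro s v hv hsv
    have h1 := coeff_X_mul_pderiv v G s
    rw [hV v hv, mul_zero, coeff_zero] at h1
    rcases mul_eq_zero.1 h1.symm with h2 | h2
    · exact absurd h2 (by exact_mod_cast hsv)
    · exact h2
  -- the right hand side has no terms with `s z ≠ d`
  have hℓ : ∀ s : σ →₀ ℕ, s t.z ≠ 0 → coeff s (t.lin a + Polynomial.aeval (X t.w) r) = 0 := by
    intro s hs
    have h1 := coeff_X_mul_pderiv t.z (t.lin a + Polynomial.aeval (X t.w) r) s
    have h2 : t.z ∉ t.V := by rw [t.mem_V]; exact not_lt.2 t.hwz.le
    rw [map_add, t.pderiv_lin' h2, pderiv_aeval t.hwz.ne, add_zero, mul_zero, coeff_zero] at h1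
    rcases mul_eq_zero.1 h1.symm with h3 | h3
    · exact absurd h3 (by exact_mod_cast hs)
    · exact h3
  have hE : ∀ s : σ →₀ ℕ, s t.z ≠ d → coeff s (t.E d j * (t.lin a + Polynomial.aeval (X t.w) r)) = 0 := by
    intro s hs
    rw [t.E_eq, coeff_monomial_mul']
    split_ifs with h
    · rw [one_mul]
      apply hℓ
      have h1 := h t.z
      simp only [Finsupp.add_apply, Finsupp.single_eq_same, Finsupp.single_apply, t.hwz.ne, if_false, add_zero] at h1
      simp only [Finsupp.tsub_apply, Finsupp.add_apply, Finsupp.single_eq_same, Finsupp.single_apply, t.hwz.ne,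
        if_false, add_zero]
      omega
    · rfl
  have hmain : ∀ s : σ →₀ ℕ, s t.z ≠ d → (q : ℚ) * ((s t.z : ℚ) - d) * coeff s G =
      if s t.z = 0 then 0 else ((s t.w : ℚ) - j) * coeff (s - Finsupp.single t.z 1) G := by
    intro s hs
    have h1 := congrArg (coeff s) hG
    rw [hD, coeff_add, hE s hs, add_zero, coeff_sub, coeff_C_mul, coeff_X_mul_pderiv, Tw.lam, sub_mul, coeff_sub,
      coeff_C_mul, mul_assoc (C (j : ℚ)), coeff_C_mul, coeff_X_mul' s t.z (X t.w * pderiv t.w G),
      coeff_X_mul' s t.z G] at h1
    by_cases h0 : s t.z = 0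
    · have h2 : t.z ∉ s.support := by rw [Finsupp.notMem_support_iff]; exact h0
      rw [if_neg h2, if_neg h2, mul_zero, sub_zero, sub_zero] at h1
      rw [if_pos h0]
      linear_combination h1
    · have h2 : t.z ∈ s.support := by rw [Finsupp.mem_support_iff]; exact h0
      rw [if_pos h2, if_pos h2, coeff_X_mul_pderiv] at h1
      have h3 : (s - Finsupp.single t.z 1 : σ →₀ ℕ) t.w = s t.w := by
        rw [Finsupp.tsub_apply, Finsupp.single_apply, if_neg t.hwz.ne', Nat.sub_zero]
      rw [h3] at h1
      rw [if_neg h0]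
      linear_combination h1
  -- the coefficients with `s w ≠ j`
  have hlow : ∀ n : ℕ, ∀ s : σ →₀ ℕ, s t.z = n → n < d → coeff s G = 0 := by
    intro n
    induction n with
    | zero =>
      intro s hs hn
      have h1 := hmain s (by omega)
      rw [if_pos hs] at h1
      rcases mul_eq_zero.1 h1 with h2 | h2
      · exfalso
        rcases mul_eq_zero.1 h2 with h3 | h3
        · exact hqQ h3
        · rw [hs] at h3
          have h4 : (d : ℚ) = 0 := by push_cast at h3; linarith
          have h5 : d = 0 := by exact_mod_cast h4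
          omega
      · exact h2
    | succ n ih =>
      intro s hs hn
      have h1 := hmain s (by omega)
      have h2 : coeff (s - Finsupp.single t.z 1) G = 0 := by
        apply ih _ _ (by omega)
        rw [Finsupp.tsub_apply, Finsupp.single_eq_same]; omega
      rw [h2, mul_zero, ite_self] at h1
      rcases mul_eq_zero.1 h1 with h3 | h3
      · exfalso
        rcases mul_eq_zero.1 h3 with h4 | h4
        · exact hqQ h4
        · rw [hs] at h4
          have h5 : ((n + 1 : ℕ) : ℚ) = d := by linarith
          have h6 : n + 1 = d := by exact_mod_cast h5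
          omega
      · exact h3
  have hhigh : ∀ s : σ →₀ ℕ, s t.w ≠ j → d ≤ s t.z → coeff s G = 0 := by
    intro s hsw hsz
    by_contra hne
    have hk : ∀ k : ℕ, coeff (s + Finsupp.single t.z k) G ≠ 0 := by
      intro k
      induction k with
      | zero => simpa using hne
      | succ k ih =>
        intro h0
        have hz : (s + Finsupp.single t.z (k + 1)) t.z = s t.z + (k + 1) := by simp
        have hw : (s + Finsupp.single t.z (k + 1)) t.w = s t.w := by
          simp [Finsupp.single_apply, t.hwz.ne']
        have h1 := hmain (s + Finsupp.single t.z (k + 1)) (by rw [hz]; omega)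
        have h2 : s + Finsupp.single t.z (k + 1) - Finsupp.single t.z 1 = s + Finsupp.single t.z k := by
          ext i
          simp only [Finsupp.add_apply, Finsupp.tsub_apply, Finsupp.single_apply]
          split_ifs <;> omega
        rw [h0, mul_zero, if_neg (by rw [hz]; omega), h2, hw] at h1
        rcases mul_eq_zero.1 h1.symm with h3 | h3
        · apply hsw
          have h4 : ((s t.w : ℕ) : ℚ) = j := by linarith
          exact_mod_cast h4
        · exact ih h3
    -- infinitely many coefficients
    have hinf : (Set.range fun k : ℕ => s + Finsupp.single t.z k) ⊆ (G.support : Set (σ →₀ ℕ)) := by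
      rintro _ ⟨k, rfl⟩
      exact mem_support_iff.2 (hk k)
    have hinj : Function.Injective (fun k : ℕ => s + Finsupp.single t.z k) := by
      intro k l h
      have := congrArg (fun f : σ →₀ ℕ => f t.z) h
      simpa using this
    exact Set.infinite_range_of_injective hinj (G.support.finite_toSet.subset hinf)
  have hmid : ∀ s : σ →₀ ℕ, s t.w = j → s t.z ≠ d → coeff s G = 0 := by
    intro s hsw hsz
    have h1 := hmain s hsz
    rw [hsw, sub_self, zero_mul, ite_self] at h1
    rcases mul_eq_zero.1 h1 with h3 | h3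
    · exfalso
      rcases mul_eq_zero.1 h3 with h4 | h4
      · exact hqQ h4
      · apply hsz
        have h5 : ((s t.z : ℕ) : ℚ) = d := by linarith
        exact_mod_cast h5
    · exact h3
  refine ⟨coeff (Finsupp.single t.z d + Finsupp.single t.w j) G, ?_⟩
  rw [t.E_eq, mul_comm, C_mul_monomial, mul_one]
  ext s
  rw [coeff_monomial]
  split_ifs with h
  · rw [h]
  · by_cases hw : s t.w = j
    · by_cases hz : s t.z = d
      · -- some other variable
        obtain ⟨v, hv⟩ : ∃ v, (Finsupp.single t.z d + Finsupp.single t.w j) v ≠ s v := by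
          by_contra hcon
          push Not at hcon
          exact h (Finsupp.ext hcon)
        have hvz : v ≠ t.z := by
          rintro rfl
          apply hv
          simp [Finsupp.single_apply, t.hwz.ne, hz]
        have hvw : v ≠ t.w := by
          rintro rfl
          apply hv
          simp [Finsupp.single_apply, t.hwz.ne', hw]
        apply hs0 s v (lt_of_le_of_ne (t.htop v hvz) hvw)
        intro h0
        apply hv
        rw [h0]
        simp [Finsupp.single_apply, hvz.symm, hvw.symm]
      · exact hmid s hw hz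
    · by_cases hz : s t.z < d
      · exact hlow _ s rfl hz
      · exact hhigh s hw (by omega)

/-- the derivatives of the variables are linearly independent over `ℚ` modulo the constants -/
lemma Tw.indep (hq : 1 ≤ q) {b : σ → ℚ} {a : ℚ} (h : ∑ v ∈ t.V, C (b v) * (C (q : ℚ) * t.g v) = C a) :
    ∀ v ∈ t.V, b v = 0 := by
  have hqQ : (q : ℚ) ≠ 0 := by exact_mod_cast (by omega : q ≠ 0)
  intro v hv
  have hvw := t.mem_V.1 hv
  cases hp : t.pr v with
  | some u =>
    obtain ⟨hvu, huw⟩ := t.hpr v u hvw hp
    have h1 := congrArg (coeff (Finsupp.single u 1)) h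
    rw [coeff_sum, coeff_C, if_neg (by
      intro h0
      have := congrArg (fun f : σ →₀ ℕ => f u) h0
      simp at this)] at h1
    rw [Finset.sum_eq_single v] at h1
    · rw [coeff_C_mul, coeff_C_mul, Tw.g, hp] at h1
      simp only at h1
      rw [coeff_X, if_pos rfl, mul_one] at h1
      rcases mul_eq_zero.1 h1 with h2 | h2
      · exact h2
      · exact absurd h2 hqQ
    · intro v' hv' hne
      rw [coeff_C_mul, coeff_C_mul, Tw.g]
      cases hp' : t.pr v' with
      | some u' =>
        simp only
        have : u' ≠ u := by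
          rintro rfl
          exact hne (t.hinj v' v u' (t.mem_V.1 hv') hvw hp' hp)
        rw [coeff_X, if_neg (by
          intro h0
          have := congrArg (fun f : σ →₀ ℕ => f u) h0
          simp [Finsupp.single_apply] at this
          tauto)]
        simp
      | none =>
        simp only
        rw [coeff_sub, X_pow_eq_monomial, coeff_monomial, if_neg (by
          intro h0
          have := congrArg (fun f : σ →₀ ℕ => f u) h0
          simp [Finsupp.single_apply, huw.ne'] at this), coeff_one, if_neg (by
          intro h0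
          have := congrArg (fun f : σ →₀ ℕ => f u) h0
          simp at this)]
        simp
    · intro h0; exact absurd hv h0
  | none =>
    have hm := t.hm v hvw hp
    have h1 := congrArg (coeff (Finsupp.single t.w (t.m v))) h
    rw [coeff_sum, coeff_C, if_neg (by
      intro h0
      have := congrArg (fun f : σ →₀ ℕ => f t.w) h0
      simp at this
      omega)] at h1
    rw [Finset.sum_eq_single v] at h1
    · rw [coeff_C_mul, coeff_C_mul, Tw.g, hp] at h1
      simp only at h1
      rw [coeff_sub, X_pow_eq_monomial, coeff_monomial, if_pos rfl, coeff_one, if_neg (by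
        intro h0
        have := congrArg (fun f : σ →₀ ℕ => f t.w) h0
        simp at this
        omega)] at h1
      rcases mul_eq_zero.1 h1 with h2 | h2
      · exact h2
      · exfalso
        rcases mul_eq_zero.1 h2 with h3 | h3
        · exact hqQ h3
        · norm_num at h3
    · intro v' hv' hne
      rw [coeff_C_mul, coeff_C_mul, Tw.g]
      cases hp' : t.pr v' with
      | some u' =>
        simp only
        have huw := (t.hpr v' u' (t.mem_V.1 hv') hp').2
        rw [coeff_X, if_neg (by
          intro h0
          have := congrArg (fun f : σ →₀ ℕ => f u') h0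
          simp [Finsupp.single_apply, huw.ne'] at this)]
        simp
      | none =>
        simp only
        rw [coeff_sub, X_pow_eq_monomial, coeff_monomial, if_neg (by
          intro h0
          have h2 := congrArg (fun f : σ →₀ ℕ => f t.w) h0
          simp at h2
          exact hne (t.hminj v' v (t.mem_V.1 hv') hvw hp' hp h2)), coeff_one, if_neg (by
          intro h0
          have := congrArg (fun f : σ →₀ ℕ => f t.w) h0
          simp at this
          omega)]
        simp
    · intro h0; exact absurd hv h0

end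

end Pool.Agent.R352.E
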