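import Pool.Agent.H18.L.R352.E.Sys

/-!
# E-functions: algebraic independence of the values of the iterated exponential integrals
-/

set_option autoImplicit false
set_option linter.unusedSectionVars false
set_option linter.unusedSimpArgs false

open PowerSeries Finset.HasAntidiagonal

namespace Pool.Agent.R352.E

open Pool.Agent.Y113

section

variable {σ : Type} [Fintype σ] [LinearOrder σ] {t : Tw σ} {q : ℕ} {f : σ → ℚ⟦X⟧}

lemma cv_f (R : Real' t q f) (i : σ) : Cv 1 (f i) := by
  by_cases hz : i = t.z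
  · rw [hz, R.hz]
    have := Cv.coe (t := 1) (Polynomial.X : Polynomial ℚ)
    rwa [Polynomial.coe_X] at this
  · by_cases hw : i = t.w
    · rw [hw, R.hw]; exact (EF_wS q R.hq).cv
    · exact (R.hE i (lt_of_le_of_ne (t.htop i hz) hw)).cv

lemma ev_mon (R : Real' t q f) (s : σ →₀ ℕ) : ev 1 (mon f s) = ∏ i, ev 1 (f i) ^ s i := by
  rw [mon_eq, Cv.ev_prod one_pos _ _ (fun i _ => (cv_f R i).pow one_pos _)]
  exact Finset.prod_congr rfl fun i _ => (cv_f R i).ev_pow one_pos _

/-- algebraic independence of the values at `1` -/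
theorem val_alg (R : Real' t q f) : AlgebraicIndependent ℚ (fun i : {i : σ // i ≠ t.z} => ev 1 (f i.1)) := by
  classical
  obtain ⟨M, hM1, hM⟩ : ∃ M : ℕ, 1 ≤ M ∧ ∀ v, v < t.w → t.m v ≤ M := by
    refine ⟨1 + ∑ v, t.m v, by omega, fun v _ => ?_⟩
    have := Finset.single_le_sum (f := fun v => t.m v) (fun _ _ => Nat.zero_le _) (Finset.mem_univ v)
    omega
  rw [algebraicIndependent_iff]
  intro p hp
  set p' : MvPolynomial σ ℚ := MvPolynomial.rename Subtype.val p with hp'
  have hinj : Function.Injective (MvPolynomial.rename (R := ℚ) (Subtype.val : {i : σ // i ≠ t.z} → σ)) :=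
    MvPolynomial.rename_injective _ Subtype.val_injective
  suffices h : p' = 0 by
    apply hinj
    rw [← hp', h, map_zero]
  have hval : MvPolynomial.aeval (fun i : σ => ev 1 (f i)) p' = 0 := by
    rw [hp', MvPolynomial.aeval_rename, ← hp]
    rfl
  have hz : ∀ s ∈ p'.support, s t.z = 0 := by
    intro s hs
    have h1 := MvPolynomial.coeff_rename_ne_zero _ _ _ (MvPolynomial.mem_support_iff.1 hs)
    obtain ⟨u, hu, _⟩ := h1
    rw [← hu]
    apply Finsupp.mapDomain_of_notMem_range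
    rintro ⟨i, hi⟩
    exact i.2 hi
  set J₀ : ℕ := ∑ s ∈ p'.support, (s t.w + M * ∑ v ∈ t.V, s v) with hJ₀
  haveI : Finite (Idx t M J₀) := Idx_finite t hM1
  letI : Fintype (Idx t M J₀) := Fintype.ofFinite _
  have hmem : ∀ s ∈ p'.support, s t.z = 0 ∧ s t.w + M * ∑ v ∈ t.V, s v ≤ J₀ := by
    intro s hs
    refine ⟨hz s hs, ?_⟩
    rw [hJ₀]
    exact Finset.single_le_sum (f := fun s : σ →₀ ℕ => s t.w + M * ∑ v ∈ t.V, s v) (fun _ _ => Nat.zero_le _) hs
  have hLI := Fintype.linearIndependent_iff.1 (val_LI R hM hM1 (J₀ := J₀))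
    (fun s => MvPolynomial.coeff s.1 p') (by
      have h1 : ∑ s : Idx t M J₀, MvPolynomial.coeff s.1 p' • ev 1 (mon f s.1) =
          ∑ s ∈ (Finset.univ : Finset (Idx t M J₀)).map ⟨Subtype.val, Subtype.val_injective⟩,
            MvPolynomial.coeff s p' • ev 1 (mon f s) := by
        rw [Finset.sum_map]; rfl
      rw [h1, ← hval]
      have h2 : p'.support ⊆ (Finset.univ : Finset (Idx t M J₀)).map ⟨Subtype.val, Subtype.val_injective⟩ := by
        intro s hs
        rw [Finset.mem_map]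
        exact ⟨⟨s, hmem s hs⟩, Finset.mem_univ _, rfl⟩
      rw [← Finset.sum_subset h2 (fun s _ hs => by rw [MvPolynomial.notMem_support_iff.1 hs, zero_smul])]
      conv_rhs => rw [MvPolynomial.as_sum p', map_sum]
      refine Finset.sum_congr rfl fun s _ => ?_
      rw [MvPolynomial.aeval_monomial, ev_mon R, Finsupp.prod_fintype _ _ (fun i => pow_zero _), Algebra.smul_def])
  ext s
  rw [MvPolynomial.coeff_zero]
  by_cases hs : s ∈ p'.support
  · exact hLI ⟨s, hmem s hs⟩
  · exact MvPolynomial.notMem_support_iff.1 hs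

end

/-! ## The concrete tower -/

lemma deriv_ES (l : ℕ) (x : ℚ) (q : ℕ) : (TQ q : ℚ⟦X⟧) * d⁄dX ℚ (ES (l + 1) x) = (q : ℚ⟦X⟧) * ES l x := by
  rw [TQ_eq]
  have h1 : (X : ℚ⟦X⟧) * d⁄dX ℚ (ES (l + 1) x) = ES l x := by
    ext m
    rcases m with _ | m
    · simp [ES]
    · rw [coeff_succ_X_mul, coeff_derivative, ES, coeff_mk, ES, coeff_mk, if_neg (Nat.succ_ne_zero m),
        if_neg (Nat.succ_ne_zero m)]
      have : ((m + 1).factorial : ℚ) ≠ 0 := by exact_mod_cast (m + 1).factorial_ne_zero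
      have h2 : ((m : ℚ) + 1) ≠ 0 := by positivity
      push_cast
      rw [pow_succ ((m : ℚ) + 1)]
      field_simp
  rw [mul_assoc, h1]

lemma ES_zero (m q : ℕ) : ES 0 ((m : ℚ) / q) = 1 - wS q ^ m := by
  ext n
  rw [map_sub, coeff_wS_pow, coeff_one, ES, coeff_mk]
  split_ifs with h
  · rw [h]; simp
  · rw [pow_zero, mul_one, zero_sub, neg_div, neg_div]

section Concrete

variable (J k : ℕ) (mm : Fin k → ℕ)

/-- the index type of the tower -/
abbrev Sg (J k : ℕ) : Type := (Fin J ×ₗ Fin k) ⊕ₗ Fin 2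

/-- the predecessor -/
def prT : Sg J k → Option (Sg J k) := fun s =>
  match ofLex s with
  | Sum.inl v => if h : ((ofLex v).1 : ℕ) + 1 < J then some (toLex (Sum.inl (toLex (⟨(ofLex v).1 + 1, h⟩, (ofLex v).2))))
      else none
  | Sum.inr _ => none

/-- the multiplicities -/
def mT : Sg J k → ℕ := fun s =>
  match ofLex s with
  | Sum.inl v => mm (ofLex v).2
  | Sum.inr _ => 0

lemma lt_w_iff (s : Sg J k) : s < toLex (Sum.inr 0) ↔ ∃ v, s = toLex (Sum.inl v) := by
  rcases s with v | j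
  · exact ⟨fun _ => ⟨v, rfl⟩, fun _ => Sum.Lex.inl_lt_inr v 0⟩
  · constructor
    · intro h
      have h1 : j < 0 := Sum.Lex.inr_lt_inr_iff.1 h
      exact absurd h1 (Fin.not_lt_zero j)
    · rintro ⟨v, hv⟩
      exact absurd hv (by
        intro h
        exact Sum.inr_ne_inl (toLex.injective h))

/-- the concrete tower -/
def tw (hinj : Function.Injective mm) (hpos : ∀ i, 1 ≤ mm i) : Tw (Sg J k) where
  z := toLex (Sum.inr 1)
  w := toLex (Sum.inr 0)
  pr := prT J k
  m := mT J k mm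
  hwz := Sum.Lex.inr_lt_inr_iff.2 (by decide)
  htop := by
    intro i hi
    rcases i with v | j
    · exact (Sum.Lex.inl_lt_inr v 0).le
    · have h1 : j ≠ 1 := by rintro rfl; exact hi rfl
      have h2 : j = 0 := by
        omega
      rw [h2]
      exact le_refl _
  hpr := by
    intro i j hi hp
    obtain ⟨v, rfl⟩ := (lt_w_iff J k i).1 hi
    have hp' : (if h : ((ofLex v).1 : ℕ) + 1 < J then
      some (toLex (Sum.inl (toLex (⟨(ofLex v).1 + 1, h⟩, (ofLex v).2))) : Sg J k) else none) = some j := hp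
    split_ifs at hp' with h
    have hj := Option.some.inj hp'
    subst hj
    refine ⟨?_, (lt_w_iff J k _).2 ⟨_, rfl⟩⟩
    apply Sum.Lex.inl_lt_inl_iff.2
    rw [Prod.Lex.lt_iff]
    left
    show (ofLex v).1 < ⟨(ofLex v).1 + 1, h⟩
    rw [Fin.lt_def]
    simp
  hinj := by
    intro i i' j hi hi' hp hp'
    obtain ⟨v, rfl⟩ := (lt_w_iff J k i).1 hi
    obtain ⟨v', rfl⟩ := (lt_w_iff J k i').1 hi'
    have h1 : (if h : ((ofLex v).1 : ℕ) + 1 < J then
      some (toLex (Sum.inl (toLex (⟨(ofLex v).1 + 1, h⟩, (ofLex v).2))) : Sg J k) else none) = some j := hp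
    have h2 : (if h : ((ofLex v').1 : ℕ) + 1 < J then
      some (toLex (Sum.inl (toLex (⟨(ofLex v').1 + 1, h⟩, (ofLex v').2))) : Sg J k) else none) = some j := hp'
    split_ifs at h1 with h3
    split_ifs at h2 with h4
    have h5 := (Option.some.inj h1).trans (Option.some.inj h2).symm
    have h6 := toLex.injective (Sum.inl_injective (toLex.injective h5))
    have h7 := congrArg Prod.fst h6
    have h8 := congrArg Prod.snd h6
    simp only [Fin.mk.injEq, Nat.add_right_cancel_iff] at h7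
    simp only at h8
    have h9 : ofLex v = ofLex v' := Prod.ext (Fin.ext h7) h8
    have h10 : v = v' := ofLex.injective h9
    rw [h10]
  hm := by
    intro i hi _
    obtain ⟨v, rfl⟩ := (lt_w_iff J k i).1 hi
    exact hpos _
  hminj := by
    intro i i' hi hi' hp hp' hmm
    obtain ⟨v, rfl⟩ := (lt_w_iff J k i).1 hi
    obtain ⟨v', rfl⟩ := (lt_w_iff J k i').1 hi'
    have h1 : (if h : ((ofLex v).1 : ℕ) + 1 < J then
      some (toLex (Sum.inl (toLex (⟨(ofLex v).1 + 1, h⟩, (ofLex v).2))) : Sg J k) else none) = none := hp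
    have h2 : (if h : ((ofLex v').1 : ℕ) + 1 < J then
      some (toLex (Sum.inl (toLex (⟨(ofLex v').1 + 1, h⟩, (ofLex v').2))) : Sg J k) else none) = none := hp'
    have hmm' : mm (ofLex v).2 = mm (ofLex v').2 := hmm
    split_ifs at h1 with h3
    split_ifs at h2 with h4
    have h5 : (ofLex v).1 = (ofLex v').1 := by
      apply Fin.ext
      have := (ofLex v).1.2
      have := (ofLex v').1.2
      omega
    have h9 : ofLex v = ofLex v' := Prod.ext h5 (hinj hmm')
    have h10 : v = v' := ofLex.injective h9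
    rw [h10]

/-- the functions of the tower -/
noncomputable def fT (q : ℕ) : Sg J k → ℚ⟦X⟧ := fun s =>
  match ofLex s with
  | Sum.inl v => ES (J - (ofLex v).1) ((mm (ofLex v).2 : ℚ) / q)
  | Sum.inr j => if j = 0 then wS q else X

lemma real_tw (hinj : Function.Injective mm) (hpos : ∀ i, 1 ≤ mm i) {q : ℕ} (hq : 1 ≤ q) :
    Real' (tw J k mm hinj hpos) q (fT J k mm q) where
  hq := hq
  hz := rfl
  hw := rfl
  hv := by
    intro i hi
    obtain ⟨v, rfl⟩ := (lt_w_iff J k i).1 hi
    have e1 : fT J k mm q (toLex (Sum.inl v)) = ES (J - (ofLex v).1) ((mm (ofLex v).2 : ℚ) / q) := rfl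
    have hlt := (ofLex v).1.2
    obtain ⟨l, hl⟩ : ∃ l, J - ((ofLex v).1 : ℕ) = l + 1 := ⟨J - ((ofLex v).1 : ℕ) - 1, by omega⟩
    rw [e1, hl, deriv_ES]
    congr 1
    have e2 : (tw J k mm hinj hpos).pr (toLex (Sum.inl v)) = if h : ((ofLex v).1 : ℕ) + 1 < J then
      some (toLex (Sum.inl (toLex (⟨(ofLex v).1 + 1, h⟩, (ofLex v).2)))) else none := rfl
    rw [Tw.g, e2]
    by_cases h : ((ofLex v).1 : ℕ) + 1 < J
    · rw [dif_pos h]
      simp only
      rw [MvPolynomial.aeval_X]
      show _ = ES (J - ((ofLex v).1 + 1)) ((mm (ofLex v).2 : ℚ) / q)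
      congr 1
      omega
    · rw [dif_neg h]
      simp only
      have hl0 : l = 0 := by omega
      rw [hl0, ES_zero, map_sub, map_one, map_pow, MvPolynomial.aeval_X]
      rfl
  hE := by
    intro i hi
    obtain ⟨v, rfl⟩ := (lt_w_iff J k i).1 hi
    exact EF_ES _ _ _ hq

/-- the entire function `E_l (x) = ∑_{m ≥ 1} (-1)^(m-1) x^m / (m! m^l)` -/
noncomputable def EE (l : ℕ) (x : ℝ) : ℝ := ∑' m : ℕ, -(-x) ^ (m + 1) / ((m + 1).factorial * ((m : ℝ) + 1) ^ l)

lemma ev_ES (l : ℕ) (a q : ℕ) (hq : 1 ≤ q) : ev 1 (ES l ((a : ℚ) / q)) = EE l ((a : ℝ) / q) := by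
  have hs : Summable fun m : ℕ => ((coeff m (ES l ((a : ℚ) / q)) : ℚ) : ℝ) * (1 / 1) ^ m :=
    (EF_ES l a q hq).cv.summable one_pos
  rw [ev, hs.tsum_eq_zero_add, EE]
  have h0 : ((coeff 0 (ES l ((a : ℚ) / q)) : ℚ) : ℝ) = 0 := by rw [ES, coeff_mk, if_pos rfl]; simp
  rw [h0, zero_mul, zero_add]
  refine tsum_congr fun m => ?_
  rw [ES, coeff_mk, if_neg (Nat.succ_ne_zero m)]
  push_cast
  simp

lemma ev_wS (q : ℕ) : ev 1 (wS q) = Real.exp (-1 / q) := by
  rw [ev, Real.exp_eq_exp_ℝ, NormedSpace.exp_eq_tsum_div]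
  refine tsum_congr fun m => ?_
  rw [wS, coeff_mk]
  push_cast
  simp

/-- algebraic independence of `exp (-1/q)` and the numbers `E_l (m_i / q)`, `1 ≤ l ≤ J` -/
theorem EE_alg (hinj : Function.Injective mm) (hpos : ∀ i, 1 ≤ mm i) {q : ℕ} (hq : 1 ≤ q) :
    AlgebraicIndependent ℚ (fun o : Option (Fin J × Fin k) =>
      o.elim (Real.exp (-1 / q)) (fun p => EE (p.1 + 1) ((mm p.2 : ℝ) / q))) := by
  have h1 := val_alg (real_tw J k mm hinj hpos hq)
  -- reindexing
  let g : Option (Fin J × Fin k) → {i : Sg J k // i ≠ (tw J k mm hinj hpos).z} := fun o =>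
    match o with
    | none => ⟨toLex (Sum.inr 0), fun h => by
        have := Sum.inr_injective (toLex.injective h)
        exact absurd this (by decide)⟩
    | some p => ⟨toLex (Sum.inl (toLex (Fin.rev p.1, p.2))), fun h => Sum.inl_ne_inr (toLex.injective h)⟩
  have hg : Function.Injective g := by
    intro o o' h
    rcases o with _ | p <;> rcases o' with _ | p'
    · rfl
    · exact absurd (toLex.injective (congrArg Subtype.val h)) Sum.inr_ne_inl
    · exact absurd (toLex.injective (congrArg Subtype.val h)) Sum.inl_ne_inr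
    · have h2 := toLex.injective (Sum.inl_injective (toLex.injective (congrArg Subtype.val h)))
      have h3 := congrArg Prod.fst h2
      have h4 := congrArg Prod.snd h2
      simp only at h3 h4
      have h5 := Fin.rev_injective h3
      rw [Prod.ext h5 h4]
  have h2 := h1.comp g hg
  convert h2 using 1
  funext o
  rcases o with _ | p
  · show Real.exp (-1 / q) = ev 1 (wS q)
    rw [ev_wS]
  · show EE (p.1 + 1) ((mm p.2 : ℝ) / q) = ev 1 (ES (J - (Fin.rev p.1 : Fin J)) ((mm p.2 : ℚ) / q))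
    rw [ev_ES _ _ _ hq]
    congr 1
    rw [Fin.val_rev]
    have := p.1.2
    omega

end Concrete

end Pool.Agent.R352.E
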